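import Pool.Agent.TH746.UM.UmbFlat
import Pool.Agent.TH746.UM.SChn
import Pool.Agent.H721R2.Ivrii.SetNull

set_option autoImplicit false

open MeasureTheory Set Filter Topology Asymptotics
open scoped ContDiff InnerProductSpace
open Pool.Agent.H721R2.Quart Pool.Agent.H721R2.Ivrii

namespace Pool.Agent.TH746.UM

section K
variable {E Z : Type} [NormedAddCommGroup E] [InnerProductSpace ℝ E] [FiniteDimensional ℝ E]
  [NormedAddCommGroup Z] [NormedSpace ℝ Z] [FiniteDimensional ℝ Z] {Ω : Set E} {N : ℕ}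

/-- The unit normals of the family. -/
noncomputable def SChn.nu (C : SChn E Ω N Z) (k : ℕ) (z : Z) : E := dir (gradient (C.F k) (C.x k z))

omit [FiniteDimensional ℝ Z] in
theorem SChn.nu_unit (C : SChn E Ω N Z) {k : ℕ} (hk : k ≤ N) {z : Z} (hz : z ∈ C.U) :
    ⟪C.nu k z, C.nu k z⟫_ℝ = 1 := dir_unit (C.df k hk z hz).grad

omit [FiniteDimensional ℝ Z] in
/-- At an umbilic point the derivative of the normal is a multiple of the derivative of the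
position. -/
theorem SChn.kap (C : SChn E Ω N Z) {k : ℕ} (hk : k ≤ N) {z : Z} (hz : z ∈ C.U) {κ : ℝ}
    (hc : Curv Ω (C.x k z) κ) (ζ : Z) :
    fderiv ℝ (C.nu k) z ζ = κ • fderiv ℝ (C.x k) z ζ := by
  have hdf := C.df k hk z hz
  have hn : DifferentiableAt ℝ (fun y => dir (gradient (C.F k) y)) (C.x k z) :=
    (G2_contDiff_nu hdf.smooth hdf.grad).differentiableAt (by norm_num)
  have hx : DifferentiableAt ℝ (C.x k) z := (C.cx k hk z hz).differentiableAt (by simp)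
  have h1 : fderiv ℝ (C.nu k) z =
      (fderiv ℝ (fun y => dir (gradient (C.F k) y)) (C.x k z)).comp (fderiv ℝ (C.x k) z) :=
    fderiv_comp z hn hx
  rw [h1, ContinuousLinearMap.comp_apply]
  refine curv_key hdf hc _ ?_
  have h2 := C.tan k hk z hz ζ
  unfold dir at h2
  rw [real_inner_smul_left] at h2
  exact (mul_eq_zero.1 h2).resolve_left (inv_ne_zero (norm_ne_zero_iff.2 hdf.grad))

omit [FiniteDimensional ℝ Z] in
theorem SChn.x_frontier (C : SChn E Ω N Z) {k : ℕ} (hk : k ≤ N) {z : Z} (hz : z ∈ C.U) :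
    Tendsto (C.x k) (𝓝 z) (𝓝[frontier Ω] (C.x k z)) := by
  refine tendsto_nhdsWithin_iff.2 ⟨(C.cx k hk z hz).continuousAt, ?_⟩
  filter_upwards [C.hU.mem_nhds hz] with y hy
  exact ldef_frontier (C.df k hk y hy)

omit [FiniteDimensional ℝ Z] in
theorem SChn.dx_ne (C : SChn E Ω N Z) (hd : 2 ≤ Module.finrank ℝ E) {k : ℕ} (hk : k ≤ N) {z : Z}
    (hz : z ∈ C.U) : fderiv ℝ (C.x k) z ≠ 0 := by
  intro h
  have hN := C.nu_unit hk hz
  obtain ⟨Y, hY⟩ : ∃ Y : E, Y ∉ Submodule.span ℝ {C.nu k z} := by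
    by_contra hcon
    push Not at hcon
    have h1 : Submodule.span ℝ {C.nu k z} = ⊤ := Submodule.eq_top_iff'.2 hcon
    have h2 := finrank_span_singleton (K := ℝ) (v := C.nu k z) (by
      intro h0; rw [h0, inner_zero_left] at hN; exact zero_ne_one hN)
    rw [h1, finrank_top] at h2
    omega
  obtain ⟨ζ, hζ, -⟩ := C.surj k hk z hz (Y - ⟪C.nu k z, Y⟫_ℝ • C.nu k z) 0 (by
    change ⟪C.nu k z, _⟫_ℝ = 0
    rw [inner_sub_right, inner_smul_right, hN]; ring) (inner_zero_right _)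
  rw [h, _root_.zero_apply] at hζ
  apply hY
  rw [Submodule.mem_span_singleton]
  exact ⟨⟪C.nu k z, Y⟫_ℝ, (sub_eq_zero.1 hζ.symm).symm⟩

omit [FiniteDimensional ℝ Z] in
theorem SChn.rank (C : SChn E Ω N Z) (hd : 3 ≤ Module.finrank ℝ E) {k : ℕ} (hk : k ≤ N) {z : Z}
    (hz : z ∈ C.U) (a : Z) : ∃ b, ∀ c : ℝ, fderiv ℝ (C.x k) z b ≠ c • fderiv ℝ (C.x k) z a := by
  have hN := C.nu_unit hk hz
  obtain ⟨v, hv⟩ : ∃ v, v = fderiv ℝ (C.x k) z a := ⟨_, rfl⟩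
  obtain ⟨Y, hY⟩ : ∃ Y : E, Y ∉ Submodule.span ℝ {C.nu k z, v} := by
    by_contra hcon
    push Not at hcon
    have h1 : Submodule.span ℝ {C.nu k z, v} = ⊤ := Submodule.eq_top_iff'.2 hcon
    have h2 : Module.finrank ℝ (Submodule.span ℝ ({C.nu k z, v} : Set E)) ≤ 2 := by
      classical
      have h3 := finrank_span_finset_le_card (R := ℝ) ({C.nu k z, v} : Finset E)
      rw [Finset.coe_pair] at h3
      exact h3.trans Finset.card_le_two
    rw [h1, finrank_top] at h2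
    omega
  obtain ⟨ζ, hζ, -⟩ := C.surj k hk z hz (Y - ⟪C.nu k z, Y⟫_ℝ • C.nu k z) 0 (by
    change ⟪C.nu k z, _⟫_ℝ = 0
    rw [inner_sub_right, inner_smul_right, hN]; ring) (inner_zero_right _)
  refine ⟨ζ, fun c hc => hY ?_⟩
  rw [hζ, ← hv] at hc
  rw [Submodule.mem_span_pair]
  exact ⟨⟪C.nu k z, Y⟫_ℝ, c, by rw [← hc]; abel⟩

/-- At a vertex the factor is stationary. -/
theorem SChn.vertex (C : SChn E Ω N Z) (hd : 2 ≤ Module.finrank ℝ E) {k : ℕ} (hk : k ≤ N) {z : Z}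
    (hz : z ∈ C.U) (hv : Vertex Ω (C.x k z)) : fderiv ℝ (lamf (C.x k) (C.nu k)) z = 0 := by
  obtain ⟨κ, h1, h2⟩ := hv
  have hx := C.x_frontier hk hz
  have h3 : ∀ᶠ z' in 𝓝 z, lamf (C.x k) (C.nu k) z' = κ (C.x k z') := by
    filter_upwards [hx.eventually h1, C.hU.mem_nhds hz] with z' h4 h5
    exact lamf_eq (C.dx_ne hd hk h5) (C.kap hk h5 h4)
  have h4 : (fun z' => lamf (C.x k) (C.nu k) z' - lamf (C.x k) (C.nu k) z) =o[𝓝 z]
      fun z' => z' - z := by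
    have h5 := h2.comp_tendsto hx
    have h6 : (fun z' => C.x k z' - C.x k z) =O[𝓝 z] fun z' => z' - z :=
      ((C.cx k hk z hz).differentiableAt (by simp)).hasFDerivAt.isBigO_sub
    have h7 := h5.trans_isBigO h6
    refine h7.congr' ?_ EventuallyEq.rfl
    filter_upwards [h3] with z' h8
    simp only [Function.comp_apply]
    rw [h8, h3.self_of_nhds]
  have h5 : HasFDerivAt (lamf (C.x k) (C.nu k)) (0 : Z →L[ℝ] ℝ) z := by
    rw [hasFDerivAt_iff_isLittleO]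
    simpa using h4
  exact h5.fderiv

end K

section M
variable {d : ℕ}

/-- The condition on the bounce points: umbilic points for `d ≥ 3`, vertices for `d = 2`. -/
def Round (Ω : Set (EuclideanSpace ℝ (Fin d))) (q : EuclideanSpace ℝ (Fin d)) : Prop :=
  SmoothAt Ω q ∧ (d = 2 → Vertex Ω q) ∧ (3 ≤ d → Umbilic Ω q)

theorem fam_null (hd : 2 ≤ d) {Z : Type} [NormedAddCommGroup Z] [NormedSpace ℝ Z]
    [FiniteDimensional ℝ Z] [MeasurableSpace Z] [BorelSpace Z] (μ : Measure Z)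
    [μ.IsAddHaarMeasure] {Ω : Set (EuclideanSpace ℝ (Fin d))}
    {g : EuclideanSpace ℝ (Fin d) ≃ᵃⁱ[ℝ] EuclideanSpace ℝ (Fin d)} {n : ℕ} (hn : 1 ≤ n)
    (C : SChn (EuclideanSpace ℝ (Fin d)) Ω n Z) :
    μ {z | z ∈ C.U ∧ C.x n z = g (C.x 0 z) ∧ C.e n z = g.linearIsometryEquiv (C.e 0 z) ∧
      ∀ k ≤ n, Round Ω (C.x k z)} = 0 := by
  obtain ⟨A, hA⟩ : ∃ A : Set Z, A = {z | z ∈ C.U ∧ C.x n z = g (C.x 0 z) ∧
    C.e n z = g.linearIsometryEquiv (C.e 0 z) ∧ ∀ k ≤ n, Round Ω (C.x k z)} := ⟨_, rfl⟩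
  rw [← hA]
  have hAm : ∀ z ∈ A, z ∈ C.U ∧ C.x n z = g (C.x 0 z) ∧
    C.e n z = g.linearIsometryEquiv (C.e 0 z) ∧ ∀ k ≤ n, Round Ω (C.x k z) := by
    intro z hz; rw [hA] at hz; exact hz
  have hfr : Module.finrank ℝ (EuclideanSpace ℝ (Fin d)) = d := finrank_euclideanSpace_fin
  have hflat : ∀ k, ∃ B : Set Z, μ B = 0 ∧ (k ≤ n → ∀ z0 ∈ A \ B, ∃ lam,
      Sph (C.x k) (C.nu k) z0 lam) := by
    intro k
    by_cases hk : k ≤ n
    · have hcx : ∀ z ∈ A, ContDiffAt ℝ ∞ (C.x k) z := fun z hz => C.cx k hk z (hAm z hz).1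
      have hcn : ∀ z ∈ A, ContDiffAt ℝ ∞ (C.nu k) z := fun z hz => C.cn k hk z (hAm z hz).1
      have htan : ∀ z ∈ A, ∀ᶠ z' in 𝓝 z, ∀ ζ, ⟪C.nu k z', fderiv ℝ (C.x k) z' ζ⟫_ℝ = 0 := by
        intro z hz
        filter_upwards [C.hU.mem_nhds (hAm z hz).1] with z' hz'
        exact C.tan k hk z' hz'
      rcases Nat.lt_or_ge 2 d with h3 | h3
      · obtain ⟨B, hB, hf⟩ := umb_flat μ A (C.x k) (C.nu k) hcx hcn
          (fun z hz => C.rank (by rw [hfr]; exact h3) hk (hAm z hz).1)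
          (fun z hz => by
            obtain ⟨κ, hκ⟩ := ((hAm z hz).2.2.2 k hk).2.2 h3
            exact ⟨κ, C.kap hk (hAm z hz).1 hκ⟩) htan
        exact ⟨B, hB, fun _ => hf⟩
      · have hd2 : d = 2 := by omega
        obtain ⟨B, hB, hf⟩ := lam_flat μ A (C.x k) (C.nu k) hcx hcn
          (fun z hz => C.dx_ne (by rw [hfr]; exact hd) hk (hAm z hz).1)
          (fun z hz => by
            obtain ⟨κ, h1, h2⟩ := ((hAm z hz).2.2.2 k hk).2.1 hd2
            have h4 : Curv Ω (C.x k z) (κ (C.x k z)) :=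
              h1.self_of_nhdsWithin (ldef_frontier (C.df k hk z (hAm z hz).1))
            exact ⟨κ (C.x k z), C.kap hk (hAm z hz).1 h4⟩) htan
          (fun z hz => C.vertex (by rw [hfr]; exact hd) hk (hAm z hz).1
            (((hAm z hz).2.2.2 k hk).2.1 hd2))
        exact ⟨B, hB, fun _ => hf⟩
    · exact ⟨∅, measure_empty, fun h => absurd h hk⟩
  choose B hB hBf using hflat
  obtain ⟨B', hB', happ⟩ := exists_appr μ A
  refine measure_mono_null (t := B' ∪ ⋃ k, B k) ?_ (measure_union_null hB' (measure_iUnion_null hB))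
  intro z0 hz0
  by_contra hcon
  have hzB' : z0 ∉ B' := fun h => hcon (Or.inl h)
  have hzB : ∀ k, z0 ∉ B k := fun k h => hcon (Or.inr (mem_iUnion.2 ⟨k, h⟩))
  obtain ⟨hU, -, -, -⟩ := hAm z0 hz0
  have hlam : ∀ k, ∃ lam : ℝ, k ≤ n → Sph (C.x k) (C.nu k) z0 lam := by
    intro k
    by_cases hk : k ≤ n
    · obtain ⟨lam, h⟩ := hBf k hk z0 ⟨hz0, hzB k⟩
      exact ⟨lam, fun _ => h⟩
    · exact ⟨0, fun h => absurd h hk⟩
  choose lam hlam using hlam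
  obtain ⟨ν, hν1, hν2⟩ : ∃ ν : ℕ → Z → EuclideanSpace ℝ (Fin d), (∀ k ≤ n, ν k = C.nu k) ∧
      ∀ k, ¬ k ≤ n → ν k = fun _ => C.e 0 z0 :=
    ⟨fun k => if k ≤ n then C.nu k else fun _ => C.e 0 z0, fun k hk => if_pos hk,
      fun k hk => if_neg hk⟩
  have hνc : ∀ k, ContinuousAt (ν k) z0 := by
    intro k
    by_cases hk : k ≤ n
    · rw [hν1 k hk]; exact (C.cn k hk z0 hU).continuousAt
    · rw [hν2 k hk]; exact continuousAt_const
  have hνu : ∀ k, ∀ z ∈ A, ⟪ν k z, ν k z⟫_ℝ = 1 := by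
    intro k z hz
    by_cases hk : k ≤ n
    · rw [hν1 k hk]; exact C.nu_unit hk (hAm z hz).1
    · rw [hν2 k hk]; exact C.ee 0 (Nat.zero_le _) z0 hU
  have htr : ∀ k < n, ⟪ν (k + 1) z0, C.e k z0⟫_ℝ ≠ 0 := by
    intro k hk h0
    rw [hν1 (k + 1) hk] at h0
    apply C.tr (k + 1) hk z0 hU
    change ⟪C.nu (k + 1) z0, _⟫_ℝ = 0
    rw [C.refl k hk z0]
    change ⟪C.nu (k + 1) z0, rf (C.nu (k + 1) z0) (C.e k z0)⟫_ℝ = 0
    unfold rf
    rw [inner_sub_right, inner_smul_right, h0]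
    ring
  refine red (Z := Z) hd hn (g := g) (x := C.x) (e := C.e) (ν := ν) (L := C.L) (A := A) (z0 := z0)
    (lam := lam) hz0
    (fun k hk => (C.cx k hk z0 hU).differentiableAt (by simp))
    (fun k hk => (C.ce k hk z0 hU).differentiableAt (by simp))
    (fun k hk => (C.cL k hk z0 hU).continuousAt) hνc
    (fun k hk => C.Lpos k hk z0 hU) C.step
    (fun k hk z => by rw [hν1 (k + 1) hk]; exact C.refl k hk z) hνu
    (C.ee 0 (Nat.zero_le _) z0 hU) htr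
    (by rw [hν1 0 (Nat.zero_le _)]; exact C.tr 0 (Nat.zero_le _) z0 hU)
    (fun z hz => (hAm z hz).2.1) (fun z hz => (hAm z hz).2.2.1)
    (fun k hk M => by rw [hν1 (k + 1) hk]; exact (hlam (k + 1) hk).1 M)
    (fun k hk M => by rw [hν1 (k + 1) hk]; exact (hlam (k + 1) hk).2 M)
    (by rw [hν1 0 (Nat.zero_le _)]; exact C.surj 0 (Nat.zero_le _) z0 hU)
    (fun ζ => happ z0 ⟨hz0, hzB'⟩ ζ)

/-- The phase points whose trajectory is periodic modulo `Γ` with all bounces at round points. -/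
def PerRound (Γ : Set (EuclideanSpace ℝ (Fin d) ≃ᵃⁱ[ℝ] EuclideanSpace ℝ (Fin d)))
    (Ω : Set (EuclideanSpace ℝ (Fin d))) :
    Set (EuclideanSpace ℝ (Fin d) × EuclideanSpace ℝ (Fin d)) :=
  {z | ∃ g ∈ Γ, ∃ (n : ℕ) (p u : ℕ → EuclideanSpace ℝ (Fin d)), OrbitMod Ω g n p u ∧
    (p 0, u 0) = z ∧ ∀ k, Round Ω (p k)}

theorem perRound_null (hd : 2 ≤ d) (Ω : Set (EuclideanSpace ℝ (Fin d)))
    (Γ : Set (EuclideanSpace ℝ (Fin d) ≃ᵃⁱ[ℝ] EuclideanSpace ℝ (Fin d)))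
    (hΓ : Γ.Countable) (hinv : ∀ g ∈ Γ, g ⁻¹' Ω = Ω) :
    μH[((2 * d - 2 : ℕ) : ℝ)] (PerRound Γ Ω) = 0 := by
  have key : ∀ g ∈ Γ, ∀ n : ℕ, μH[((2 * d - 2 : ℕ) : ℝ)]
      ((fun w : (ℕ → EuclideanSpace ℝ (Fin d)) × (ℕ → EuclideanSpace ℝ (Fin d)) =>
        (w.1 0, w.2 0)) '' {w | OrbitMod Ω g n w.1 w.2 ∧ ∀ k, Round Ω (w.1 k)}) = 0 := by
    intro g hg n
    apply null_of_locally_null
    rintro ⟨p, u⟩ ⟨hor, hr⟩
    have hgi := hinv g hg
    obtain ⟨a, b, C, ha, hb, ⟨K, hK⟩, hev⟩ := exists_schn hgi hor fun k => (hr k).1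
    have hfr : Module.finrank ℝ ((ℝ ∙ a)ᗮ × (ℝ ∙ b)ᗮ) = 2 * d - 2 := by
      have h1 := Submodule.finrank_add_finrank_orthogonal (ℝ ∙ a)
      have h2 := Submodule.finrank_add_finrank_orthogonal (ℝ ∙ b)
      rw [finrank_span_singleton ha, finrank_euclideanSpace_fin] at h1
      rw [finrank_span_singleton hb, finrank_euclideanSpace_fin] at h2
      rw [Module.finrank_prod]
      omega
    have h0 := fam_null (g := g) hd (μH[Module.finrank ℝ ((ℝ ∙ a)ᗮ × (ℝ ∙ b)ᗮ)]) hor.pos C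
    obtain ⟨A, hA⟩ : ∃ A, A = {z | z ∈ C.U ∧ C.x n z = g (C.x 0 z) ∧
      C.e n z = g.linearIsometryEquiv (C.e 0 z) ∧ ∀ k ≤ n, Round Ω (C.x k z)} := ⟨_, rfl⟩
    rw [← hA, hfr] at h0
    refine ⟨(fun z => (C.x 0 z, C.e 0 z)) '' A, ?_, ?_⟩
    · have hK' : LipschitzOnWith K (fun z => (C.x 0 z, C.e 0 z)) A :=
        hK.mono fun z hz => by rw [hA] at hz; exact hz.1
      have h1 := hK'.hausdorffMeasure_image_le
        (d := ((2 * d - 2 : ℕ) : ℝ)) (Nat.cast_nonneg _)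
      rw [h0, mul_zero] at h1
      exact nonpos_iff_eq_zero.mp h1
    · filter_upwards [hev] with w hw hor'
      obtain ⟨z, hzU, hz⟩ := hw hor'.1
      refine ⟨z, ?_, ?_⟩
      · rw [hA]
        refine ⟨hzU, ?_, ?_, fun k hk => ?_⟩
        · rw [(hz n le_rfl).1, (hz 0 (Nat.zero_le _)).1]
          have := hor'.1.perp 0
          rwa [zero_add] at this
        · rw [(hz n le_rfl).2, (hz 0 (Nat.zero_le _)).2]
          have := hor'.1.peru 0
          rwa [zero_add] at this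
        · rw [(hz k hk).1]
          exact hor'.2 k
      · simp only
        rw [(hz 0 (Nat.zero_le _)).1, (hz 0 (Nat.zero_le _)).2]
  refine measure_mono_null (t := ⋃ g ∈ Γ, ⋃ n : ℕ,
    ((fun w : (ℕ → EuclideanSpace ℝ (Fin d)) × (ℕ → EuclideanSpace ℝ (Fin d)) =>
        (w.1 0, w.2 0)) '' {w | OrbitMod Ω g n w.1 w.2 ∧ ∀ k, Round Ω (w.1 k)})) ?_ ?_
  · rintro z ⟨g, hg, n, p, u, h1, h2, h3⟩
    exact mem_iUnion₂.2 ⟨g, hg, mem_iUnion.2 ⟨n, ⟨(p, u), ⟨h1, h3⟩, h2⟩⟩⟩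
  · exact (measure_biUnion_null_iff hΓ).2 fun g hg => measure_iUnion_null fun n => key g hg n

end M

end Pool.Agent.TH746.UM
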