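import Pool.Agent.TH746.UM.Model
import Pool.Agent.TH746.UM.Chain
import Pool.Agent.TH746.Loc

set_option autoImplicit false

open Set Filter Topology Asymptotics
open scoped InnerProductSpace ContDiff
open Pool.Agent.H721R2.Quart Pool.Agent.H721R2.Ivrii

namespace Pool.Agent.TH746.UM

section M
variable {E : Type*} [NormedAddCommGroup E] [InnerProductSpace ℝ E]

/-- The spheres (`lam ≠ 0`) and hyperplanes (`lam = 0`) through `q` with unit normal `ν` at `q`. -/
noncomputable def mir (q ν : E) (lam : ℝ) (x : E) : ℝ := lam / 2 * ⟪x - q, x - q⟫_ℝ + ⟪ν, x - q⟫_ℝ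

theorem mir_self (q ν : E) (lam : ℝ) : mir q ν lam q = 0 := by simp [mir]

theorem mir_cd (q ν : E) (lam : ℝ) (n : WithTop ℕ∞) : ContDiff ℝ n (mir q ν lam) := by
  unfold mir
  exact (contDiff_const.mul ((contDiff_id.sub contDiff_const).inner ℝ
    (contDiff_id.sub contDiff_const))).add (contDiff_const.inner ℝ (contDiff_id.sub contDiff_const))

variable [FiniteDimensional ℝ E]

theorem mir_grad (q ν : E) (lam : ℝ) (x : E) : gradient (mir q ν lam) x = lam • (x - q) + ν := by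
  apply ext_inner_right ℝ
  intro w
  rw [inner_gradient_left]
  have h0 : HasFDerivAt (fun x : E => x - q) (ContinuousLinearMap.id ℝ E) x :=
    (hasFDerivAt_id x).sub_const q
  have h1 := (h0.inner ℝ h0).const_mul (lam / 2)
  have h2 := (hasFDerivAt_const ν x).inner ℝ h0
  have h3 := h1.add h2
  have h4 : HasFDerivAt (mir q ν lam) _ x := h3
  rw [h4.fderiv]
  simp only [add_apply, smul_apply, ContinuousLinearMap.comp_apply,
    ContinuousLinearMap.prod_apply, fderivInnerCLM_apply, ContinuousLinearMap.id_apply,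
    zero_apply, inner_zero_left, add_zero, smul_eq_mul]
  rw [inner_add_left, real_inner_smul_left, real_inner_comm w (x - q)]
  ring

end M

/-- A complex polynomial which vanishes at the real points near a point is zero. -/
theorem poly_zero {σ : Type} [Finite σ] (P : MvPolynomial σ ℂ) (a : σ → ℝ)
    (h : ∀ᶠ x in 𝓝 a, MvPolynomial.eval (fun i => ((x i : ℝ) : ℂ)) P = 0) : P = 0 := by
  have := Fintype.ofFinite σ
  obtain ⟨ε, hε, hb⟩ := Metric.eventually_nhds_iff_ball.1 h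
  refine MvPolynomial.funext_set (fun i => (fun x : ℝ => (x : ℂ)) '' (Metric.ball (a i) ε)) ?_ ?_
  · intro i
    refine Set.Infinite.image (fun x _ y _ hxy => by exact_mod_cast hxy) ?_
    rw [Real.ball_eq_Ioo]
    exact Set.Ioo_infinite (by linarith)
  · intro x hx
    choose y hy hyx using fun i => hx i (Set.mem_univ i)
    have hxy : x = fun i => ((y i : ℝ) : ℂ) := by
      funext i
      exact (hyx i).symm
    rw [hxy, hb y ?_, map_zero]
    rw [ball_pi _ hε]
    intro i _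
    exact hy i

section N
open Pool.Agent.W567.IV W973.IV

variable {n : ℕ}

/-- the mirror as an object of the starting files -/
noncomputable def toMir (q ν : EuclideanSpace ℝ (Fin n)) (lam : ℝ) : Mir n :=
  if lam = 0 then Sum.inr ⟨WithLp.ofLp ν, ⟪ν, q⟫_ℝ⟩
  else Sum.inl ⟨WithLp.ofLp (q - lam⁻¹ • ν), (lam ^ 2)⁻¹⟩

theorem toMir_ok {q ν : EuclideanSpace ℝ (Fin n)} {lam : ℝ} (h : ⟪ν, ν⟫_ℝ = 1) :
    okM (toMir q ν lam) := by
  unfold toMir
  split_ifs with h1
  · change WithLp.ofLp ν ⬝ᵥ WithLp.ofLp ν = 1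
    rw [← Pool.Agent.W460.IV.inner_dot, h]
  · change 0 < (lam ^ 2)⁻¹
    positivity

/-- the reflection in the mirror, sphere case -/
theorem toMir_sph {q ν x v : EuclideanSpace ℝ (Fin n)} {lam : ℝ} (h : ⟪ν, ν⟫_ℝ = 1) {S : Sph n}
    (hS : toMir q ν lam = Sum.inl S) (hx : mir q ν lam x = 0) :
    ‖x - ce S‖ ^ 2 = S.ρ ∧ rf (dir (gradient (mir q ν lam) x)) v =
      v - (2 * ⟪x - ce S, v⟫_ℝ / S.ρ) • (x - ce S) := by
  unfold toMir at hS
  split_ifs at hS with h1
  have h2 : (⟨WithLp.ofLp (q - lam⁻¹ • ν), (lam ^ 2)⁻¹⟩ : Sph n) = S := Sum.inl.inj hS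
  have hce : ce S = q - lam⁻¹ • ν := by
    rw [← h2]; rfl
  have hρ : S.ρ = (lam ^ 2)⁻¹ := by rw [← h2]
  have hxc : x - ce S = lam⁻¹ • (lam • (x - q) + ν) := by
    rw [hce, smul_add, smul_smul, inv_mul_cancel₀ h1, one_smul]
    abel
  have hgg : ⟪lam • (x - q) + ν, lam • (x - q) + ν⟫_ℝ = 1 := by
    rw [inner_add_left, inner_add_right, inner_add_right, real_inner_smul_left,
      real_inner_smul_right, real_inner_smul_left, real_inner_smul_right, h,
      real_inner_comm ν (x - q)]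
    unfold mir at hx
    have h3 : ⟪ν, x - q⟫_ℝ = -(lam / 2 * ⟪x - q, x - q⟫_ℝ) := by linarith
    rw [real_inner_comm, h3]
    ring
  have hn : ‖lam • (x - q) + ν‖ ^ 2 = 1 := by rw [← real_inner_self_eq_norm_sq, hgg]
  refine ⟨?_, ?_⟩
  · rw [hxc, norm_smul, mul_pow, hn, hρ, mul_one, norm_inv, inv_pow, Real.norm_eq_abs, sq_abs]
  · rw [rf_dir, mir_grad, hn, hxc, hρ, real_inner_smul_left, smul_smul, real_inner_comm v]
    congr 2
    field_simp

/-- the reflection in the mirror, flat case -/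
theorem toMir_flat {q ν x v : EuclideanSpace ℝ (Fin n)} {lam : ℝ} (h : ⟪ν, ν⟫_ℝ = 1) {H : Flat n}
    (hS : toMir q ν lam = Sum.inr H) (hx : mir q ν lam x = 0) :
    ⟪(WithLp.toLp 2 H.ν : EuclideanSpace ℝ (Fin n)), x⟫_ℝ = H.h ∧
      rf (dir (gradient (mir q ν lam) x)) v =
      v - (2 * ⟪(WithLp.toLp 2 H.ν : EuclideanSpace ℝ (Fin n)), v⟫_ℝ) •
        (WithLp.toLp 2 H.ν : EuclideanSpace ℝ (Fin n)) := by
  unfold toMir at hS
  split_ifs at hS with h1
  have h2 : (⟨WithLp.ofLp ν, ⟪ν, q⟫_ℝ⟩ : Flat n) = H := Sum.inr.inj hS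
  have hν : (WithLp.toLp 2 H.ν : EuclideanSpace ℝ (Fin n)) = ν := by rw [← h2]
  have hh : H.h = ⟪ν, q⟫_ℝ := by rw [← h2]
  have hn : ‖ν‖ ^ 2 = 1 := by rw [← real_inner_self_eq_norm_sq, h]
  refine ⟨?_, ?_⟩
  · rw [hν, hh]
    unfold mir at hx
    rw [h1, inner_sub_right ν] at hx
    linarith
  · rw [rf_dir, mir_grad, h1, zero_smul, zero_add, hn, hν, div_one, real_inner_comm v]

theorem mir_unit {E : Type*} [NormedAddCommGroup E] [InnerProductSpace ℝ E]
    [FiniteDimensional ℝ E] {q ν x : E} {lam : ℝ} (h : ⟪ν, ν⟫_ℝ = 1) (hx : mir q ν lam x = 0) :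
    ⟪gradient (mir q ν lam) x, gradient (mir q ν lam) x⟫_ℝ = 1 := by
  rw [mir_grad, inner_add_left, inner_add_right, inner_add_right, real_inner_smul_left,
    real_inner_smul_right, real_inner_smul_left, real_inner_smul_right, h,
    real_inner_comm ν (x - q)]
  unfold mir at hx
  have h3 : ⟪ν, x - q⟫_ℝ = -(lam / 2 * ⟪x - q, x - q⟫_ℝ) := by linarith
  rw [h3]
  ring

/-- The model chain is not closed on an open set of lines. -/
theorem no_open (hn : 2 ≤ n) {N : ℕ} (hN : 1 ≤ N)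
    {g : EuclideanSpace ℝ (Fin n) ≃ᵃⁱ[ℝ] EuclideanSpace ℝ (Fin n)}
    {p u ν : ℕ → EuclideanSpace ℝ (Fin n)} {t lam : ℕ → ℝ}
    (hν : ∀ k, ⟪ν k, ν k⟫_ℝ = 1) (ht : ∀ k < N, 0 < t k)
    (hu0 : ⟪u 0, u 0⟫_ℝ = 1) (hpN : p N = g (p 0))
    {T : ℕ → EuclideanSpace ℝ (Fin n) × EuclideanSpace ℝ (Fin n) → ℝ}
    {s : ℕ → EuclideanSpace ℝ (Fin n) × EuclideanSpace ℝ (Fin n) →
      EuclideanSpace ℝ (Fin n) × EuclideanSpace ℝ (Fin n)}
    (hs0 : s 0 = id)
    (hsb : ∀ k ≤ N, ContinuousAt (s k) (p 0, u 0) ∧ s k (p 0, u 0) = (p k, u k))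
    (hT : ∀ k < N, ContinuousAt (fun y => T k (s k y)) (p 0, u 0) ∧ T k (p k, u k) = t k)
    (hs1 : ∀ k < N, ∀ y, s (k + 1) y = ((s k y).1 + T k (s k y) • (s k y).2,
        rf (dir (gradient (mir (p (k + 1)) (ν (k + 1)) (lam (k + 1)))
          ((s k y).1 + T k (s k y) • (s k y).2))) (s k y).2))
    (hz : ∀ k < N, ∀ᶠ y in 𝓝 (p 0, u 0),
      mir (p (k + 1)) (ν (k + 1)) (lam (k + 1)) (s (k + 1) y).1 = 0)
    (hcl : ∀ᶠ y in 𝓝 (p 0, u 0), (s N y).2 = g.linearIsometryEquiv y.2 ∧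
      ⟪y.2, y.2⟫_ℝ • ((s N y).1 - g y.1) =
        ⟪(s N y).1 - g y.1, g.linearIsometryEquiv y.2⟫_ℝ • g.linearIsometryEquiv y.2) :
    False := by
  obtain ⟨D, hD⟩ : ∃ D : ℕ → Mir n, D = fun k => toMir (p k) (ν k) (lam k) := ⟨_, rfl⟩
  obtain ⟨P, hP, hP'⟩ := model_poly hn N D (by intro k; rw [hD]; exact toMir_ok (hν k)) g
  obtain ⟨κ, hκ⟩ : ∃ κ : EuclideanSpace ℝ (Fin n) × EuclideanSpace ℝ (Fin n) → ℝ,
    κ = fun y => ⟪(s N y).1 - g y.1, g.linearIsometryEquiv y.2⟫_ℝ / ⟪y.2, y.2⟫_ℝ := ⟨_, rfl⟩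
  have hcy2 : ContinuousAt (fun y : EuclideanSpace ℝ (Fin n) × EuclideanSpace ℝ (Fin n) =>
      ⟪y.2, y.2⟫_ℝ) (p 0, u 0) := continuousAt_snd.inner continuousAt_snd
  have hκc : ContinuousAt κ (p 0, u 0) := by
    rw [hκ]
    refine ContinuousAt.div ?_ hcy2 (by simp only [hu0]; exact one_ne_zero)
    refine ContinuousAt.inner (((hsb N le_rfl).1.fst).sub ?_) ?_
    · exact (g.continuous.comp continuous_fst).continuousAt
    · exact (g.linearIsometryEquiv.continuous.comp continuous_snd).continuousAt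
  have hκ0 : κ (p 0, u 0) = 0 := by
    rw [hκ]
    simp only [(hsb N le_rfl).2, hpN, sub_self, inner_zero_left, zero_div]
  have hsum : ContinuousAt (fun y => (∑ k ∈ Finset.range N, T k (s k y)) - κ y) (p 0, u 0) := by
    refine ContinuousAt.sub ?_ hκc
    exact tendsto_finsetSum _ fun k hk => (hT k (Finset.mem_range.1 hk)).1
  have hsum0 : (∑ k ∈ Finset.range N, T k (s k (p 0, u 0))) - κ (p 0, u 0) ≠ 0 := by
    rw [hκ0, sub_zero]
    refine (Finset.sum_pos (fun k hk => ?_) ⟨0, Finset.mem_range.2 (by omega)⟩).ne'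
    rw [(hsb k (Finset.mem_range.1 hk).le).2, (hT k (Finset.mem_range.1 hk)).2]
    exact ht k (Finset.mem_range.1 hk)
  have hall : ∀ᶠ y in 𝓝 (p 0, u 0), ∀ k ∈ Set.Iio N,
      mir (p (k + 1)) (ν (k + 1)) (lam (k + 1)) (s (k + 1) y).1 = 0 := by
    rw [Filter.eventually_all_finite (Set.finite_Iio N)]
    exact fun k hk => hz k hk
  have hev : ∀ᶠ y : EuclideanSpace ℝ (Fin n) × EuclideanSpace ℝ (Fin n) in 𝓝 (p 0, u 0),
      MvPolynomial.eval (Sum.elim (fun k => ((y.1 k : ℝ) : ℂ)) (fun k => ((y.2 k : ℝ) : ℂ))) P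
        = 0 := by
    have hy2ne : ∀ᶠ y : EuclideanSpace ℝ (Fin n) × EuclideanSpace ℝ (Fin n) in 𝓝 (p 0, u 0),
        y.2 ≠ 0 := by
      refine continuousAt_snd.eventually_ne ?_
      intro h
      simp only at h
      rw [h, inner_zero_left] at hu0
      exact zero_ne_one hu0
    filter_upwards [hall, hcl, hsum.eventually_ne hsum0, hy2ne] with y h1 h2 h3 h4
    obtain ⟨c, hc⟩ : ∃ c, c = ‖y.2‖ := ⟨_, rfl⟩
    have hc0 : 0 < c := by rw [hc]; exact norm_pos_iff.2 h4
    have hyy : ⟪y.2, y.2⟫_ℝ = c ^ 2 := by rw [hc, real_inner_self_eq_norm_sq]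
    have hin : ∀ k ≤ N, ⟪(s k y).2, (s k y).2⟫_ℝ = c ^ 2 := by
      intro k
      induction k with
      | zero => intro _; rw [hs0]; exact hyy
      | succ k ih =>
        intro hk
        have h5 := h1 k hk
        rw [hs1 k hk] at h5 ⊢
        simp only at h5 ⊢
        have h6 := mir_unit (hν (k + 1)) h5
        have h7 : ⟪dir (gradient (mir (p (k + 1)) (ν (k + 1)) (lam (k + 1)))
            ((s k y).1 + T k (s k y) • (s k y).2)), dir (gradient (mir (p (k + 1)) (ν (k + 1))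
            (lam (k + 1))) ((s k y).1 + T k (s k y) • (s k y).2))⟫_ℝ = 1 := by
          refine dir_unit ?_
          intro h8
          rw [h8, inner_zero_left] at h6
          exact zero_ne_one h6
        rw [G3_rf_inner h7]
        exact ih (by omega)
    obtain ⟨q, hq0, hqk⟩ : ∃ q : ℕ → EuclideanSpace ℝ (Fin n), q 0 = y.1 + κ y • y.2 ∧
        ∀ k, k ≠ 0 → q k = (s k y).1 :=
      ⟨fun k => if k = 0 then y.1 + κ y • y.2 else (s k y).1, if_pos rfl, fun k hk => if_neg hk⟩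
    obtain ⟨w, hw⟩ : ∃ w : ℕ → EuclideanSpace ℝ (Fin n), w = fun k => c⁻¹ • (s k y).2 := ⟨_, rfl⟩
    obtain ⟨fl, hfl0, hflk⟩ : ∃ fl : ℕ → ℝ, fl 0 = c * (T 0 (s 0 y) - κ y) ∧
        ∀ k, k ≠ 0 → fl k = c * T k (s k y) :=
      ⟨fun k => if k = 0 then c * (T 0 (s 0 y) - κ y) else c * T k (s k y), if_pos rfl,
        fun k hk => if_neg hk⟩
    have hgaff : ∀ x, g x = g.linearIsometryEquiv x + g 0 := by
      intro x
      have h4 := g.map_vadd 0 x
      simp only [vadd_eq_add, add_zero] at h4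
      exact h4
    have hwk : ∀ k, (s k y).2 = c • w k := by
      intro k
      rw [hw]
      simp only
      rw [smul_smul, mul_inv_cancel₀ hc0.ne', one_smul]
    have hstep : ∀ k < N, q (k + 1) = q k + fl k • w k := by
      intro k hk
      rw [hqk (k + 1) (by omega), hs1 k hk]
      simp only
      rcases Nat.eq_zero_or_pos k with h0 | h0
      · subst h0
        have h5 := hwk 0
        rw [hs0] at h5
        simp only [id] at h5
        rw [hq0, hfl0, hs0]
        simp only [id]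
        rw [h5]
        module
      · rw [hqk k (by omega), hflk k (by omega), hwk k]
        module
    have hrefl : ∀ k < N, w (k + 1) = rf (dir (gradient (mir (p (k + 1)) (ν (k + 1))
        (lam (k + 1))) (q (k + 1)))) (w k) := by
      intro k hk
      rw [hw]
      simp only
      rw [G3_rf_smul, hqk (k + 1) (by omega), hs1 k hk]
    have hmir : ∀ k < N, mir (p (k + 1)) (ν (k + 1)) (lam (k + 1)) (q (k + 1)) = 0 := by
      intro k hk
      rw [hqk (k + 1) (by omega)]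
      exact h1 k hk
    have h10 := hP' q w fl ?_ hstep ?_ ?_ ?_ ?_ ?_ (-(c * κ y)) c hc0
    · have h11 : q 0 + (-(c * κ y)) • w 0 = y.1 := by
        have h5 := hwk 0
        rw [hs0] at h5
        simp only [id] at h5
        rw [hq0, h5]
        module
      have h12 : c • w 0 = y.2 := by
        rw [← hwk 0, hs0]
        rfl
      rw [h11, h12] at h10
      exact h10
    · intro k hk
      rw [hw]
      simp only
      rw [real_inner_smul_left, real_inner_smul_right, hin k hk]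
      field_simp
    · intro k hk S hS
      rw [hD] at hS
      obtain ⟨a1, a2⟩ := toMir_sph (v := w k) (hν (k + 1)) hS (hmir k hk)
      exact ⟨a1, by rw [hrefl k hk, a2]⟩
    · intro k hk H hH
      rw [hD] at hH
      obtain ⟨a1, a2⟩ := toMir_flat (v := w k) (hν (k + 1)) hH (hmir k hk)
      exact ⟨a1, by rw [hrefl k hk, a2]⟩
    · rw [hqk N (by omega), hq0, hgaff (y.1 + κ y • y.2), map_add, map_smul]
      have h5 : (s N y).1 - g y.1 = κ y • g.linearIsometryEquiv y.2 := by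
        have h6 := congrArg (fun z => (⟪y.2, y.2⟫_ℝ)⁻¹ • z) h2.2
        simp only [smul_smul] at h6
        have h7 : ⟪y.2, y.2⟫_ℝ ≠ 0 := by rw [hyy]; positivity
        rw [inv_mul_cancel₀ h7, one_smul] at h6
        rw [h6, hκ]
        simp only
        rw [div_eq_inv_mul]
      have h6 := hgaff y.1
      have h7 : (s N y).1 = g y.1 + κ y • g.linearIsometryEquiv y.2 := by
        rw [← h5]; abel
      rw [h7, h6]
      abel
    · rw [hw]
      simp only
      rw [h2.1, hs0, map_smul]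
      rfl
    · obtain ⟨M, rfl⟩ : ∃ M, N = M + 1 := ⟨N - 1, by omega⟩
      have e1 : ∑ i ∈ Finset.range (M + 1), fl i =
          c * ((∑ k ∈ Finset.range (M + 1), T k (s k y)) - κ y) := by
        rw [Finset.sum_range_succ', Finset.sum_range_succ', hfl0]
        have e2 : ∑ k ∈ Finset.range M, fl (k + 1) = ∑ k ∈ Finset.range M,
            c * T (k + 1) (s (k + 1) y) := Finset.sum_congr rfl fun k _ => hflk (k + 1) (by omega)
        rw [e2, ← Finset.mul_sum]
        ring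
      rw [e1]
      exact mul_ne_zero hc0.ne' h3
  apply hP
  refine poly_zero P (Sum.elim (fun k => p 0 k) (fun k => u 0 k)) ?_
  have hcont : Continuous (fun x : Fin n ⊕ Fin n → ℝ =>
      ((WithLp.toLp 2 (fun k => x (Sum.inl k)), WithLp.toLp 2 (fun k => x (Sum.inr k))) :
        EuclideanSpace ℝ (Fin n) × EuclideanSpace ℝ (Fin n))) := by
    refine Continuous.prodMk ?_ ?_
    · exact (PiLp.continuous_toLp 2 _).comp (continuous_pi fun k => continuous_apply _)
    · exact (PiLp.continuous_toLp 2 _).comp (continuous_pi fun k => continuous_apply _)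
  have hten := hcont.tendsto (Sum.elim (fun k => p 0 k) (fun k => u 0 k))
  filter_upwards [hten.eventually hev] with x hx
  have e : (fun i => ((x i : ℝ) : ℂ)) = Sum.elim (fun k => ((x (Sum.inl k) : ℝ) : ℂ))
      (fun k => ((x (Sum.inr k) : ℝ) : ℂ)) := by
    funext i
    rcases i with i | i <;> rfl
  rw [e]
  exact hx

end N

end Pool.Agent.TH746.UM
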