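import Pool.Agent.TH746.UM.Dyn3
import Pool.Agent.W567.IV.Main
import Pool.Agent.W335.IV.Germ2
import Pool.Agent.W12.IV.Alg
import Pool.Agent.W40.IV.Gen

set_option autoImplicit false

open Filter Topology

namespace Pool.Agent.TH746.UM

open Pool.Agent Pool.Agent.W567.IV W973.IV Pool.Agent.W460.IV

variable {n : ℕ}

/-- chains closed up to an affine map -/
theorem poly_of_W (hg : S_germ2) (hs : S_spec2) (hu : S_univ) (hn : 2 ≤ n) (W : List (Sph n))
    (hWpos : ∀ T ∈ W, 0 < T.ρ) (A : Matrix (Fin n) (Fin n) ℝ) (hdet : A.det ≠ 0)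
    (b : Fin n → ℝ) :
    ∃ P : MvPolynomial (Fin n ⊕ Fin n) ℂ, P ≠ 0 ∧
      ∀ (x v : Fin n → ℝ) (ch : Ch n ℂ) (s : ℝ), s ≠ 0 → v ≠ 0 → ch.map Prod.fst = W →
        WVal ch ((fun k => ((x k : ℝ) : ℂ)), (fun k => ((v k : ℝ) : ℂ))) →
        endl ch ((fun k => ((x k : ℝ) : ℂ)), (fun k => ((v k : ℝ) : ℂ)))
            = ((fun k => (((A.mulVec (x - s • v) + b) k : ℝ) : ℂ)),
               (fun k => ((A.mulVec v k : ℝ) : ℂ))) →
        MvPolynomial.eval (Sum.elim (fun k => ((x k : ℝ) : ℂ)) (fun k => ((v k : ℝ) : ℂ))) P = 0 := by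
  -- polynomial for each word
  have hpoly : ∀ W' : List (Sph n), W'.Sublist W → ∃ P : MvPolynomial (Fin n ⊕ Fin n) ℂ, P ≠ 0 ∧
      ∀ (x v : Fin n → ℝ) (c' : Ch n ℂ) (s : ℝ), s ≠ 0 → v ≠ 0 → c'.map Prod.fst = W' →
        Val c' ((fun k => ((x k : ℝ) : ℂ)), (fun k => ((v k : ℝ) : ℂ))) →
        endl c' ((fun k => ((x k : ℝ) : ℂ)), (fun k => ((v k : ℝ) : ℂ)))
            = ((fun k => (((A.mulVec (x - s • v) + b) k : ℝ) : ℂ)),
               (fun k => ((A.mulVec v k : ℝ) : ℂ))) →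
        MvPolynomial.eval (Sum.elim (fun k => ((x k : ℝ) : ℂ)) (fun k => ((v k : ℝ) : ℂ))) P = 0 := by
    intro W' hW'
    by_cases hW0 : W' = []
    · obtain ⟨P, hP, hP'⟩ := poly_of_empty hn A b
      refine ⟨P, hP, ?_⟩
      intro x v c' s hs hv hc _ he
      rw [hW0, List.map_eq_nil_iff] at hc
      rw [hc] at he
      have h1 := congrArg Prod.fst he
      have h2 := congrArg Prod.snd he
      simp only [endl] at h1 h2
      refine hP' x v s hs hv ?_ ?_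
      · funext k
        have := congrFun h2 k
        exact_mod_cast this.symm
      · funext k
        have := congrFun h1 k
        exact_mod_cast this.symm
    · obtain ⟨P, hP, hP'⟩ := poly_of_word hg hs hu hn A hdet W' hW0
        (fun T hT => hWpos T (hW'.subset hT))
      refine ⟨P, hP, ?_⟩
      intro x v c' s hs hv hc hval he
      refine hP' ((fun k => ((x k : ℝ) : ℂ)), (fun k => ((v k : ℝ) : ℂ))) c' hc hval ?_
      rw [he]
      funext k
      simp [castM, Matrix.mulVec, dotProduct]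
  obtain ⟨P, hP, hP'⟩ := prod_list (fun (P : MvPolynomial (Fin n ⊕ Fin n) ℂ)
      (W' : List (Sph n)) =>
      ∀ (x v : Fin n → ℝ) (c' : Ch n ℂ) (s : ℝ), s ≠ 0 → v ≠ 0 → c'.map Prod.fst = W' →
        Val c' ((fun k => ((x k : ℝ) : ℂ)), (fun k => ((v k : ℝ) : ℂ))) →
        endl c' ((fun k => ((x k : ℝ) : ℂ)), (fun k => ((v k : ℝ) : ℂ)))
            = ((fun k => (((A.mulVec (x - s • v) + b) k : ℝ) : ℂ)),
               (fun k => ((A.mulVec v k : ℝ) : ℂ))) →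
        MvPolynomial.eval (Sum.elim (fun k => ((x k : ℝ) : ℂ)) (fun k => ((v k : ℝ) : ℂ))) P = 0)
    (by
      intro P P' t h
      refine ⟨?_, ?_⟩
      · intro x v c' s h1 h2 h3 h4 h5
        rw [map_mul, h x v c' s h1 h2 h3 h4 h5, zero_mul]
      · intro x v c' s h1 h2 h3 h4 h5
        rw [map_mul, h x v c' s h1 h2 h3 h4 h5, mul_zero])
    W.sublists (by
      intro W' hW'
      exact hpoly W' (List.mem_sublists.mp hW'))
  refine ⟨P, hP, ?_⟩
  · intro x v ch s hs hv hc hval he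
    have hWc : ∀ p ∈ ch, 0 < p.1.ρ := by
      intro p hp
      apply hWpos
      rw [← hc]
      exact List.mem_map_of_mem hp
    have hq : (fun k => ((v k : ℝ) : ℂ)) ⬝ᵥ (fun k => ((v k : ℝ) : ℂ)) ≠ 0 := by
      have h1 : (fun k => ((v k : ℝ) : ℂ)) ⬝ᵥ (fun k => ((v k : ℝ) : ℂ)) =
          ((∑ k, v k * v k : ℝ) : ℂ) := by
        simp [dotProduct]
      rw [h1]
      obtain ⟨k, hk⟩ := Function.ne_iff.mp hv
      have h2 : 0 < ∑ k, v k * v k := by
        refine Finset.sum_pos' (fun k _ => mul_self_nonneg _) ⟨k, Finset.mem_univ _, ?_⟩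
        exact mul_self_pos.mpr hk
      exact_mod_cast h2.ne'
    obtain ⟨c', g1, g2, g3⟩ := red n ℂ ((fun k => ((x k : ℝ) : ℂ)), (fun k => ((v k : ℝ) : ℂ))) hq
      ch hWc hval
    rw [hc] at g3
    exact hP' _ (List.mem_sublists.mpr g3) x v c' s hs hv rfl g1 (by rw [g2]; exact he)



/-- the matrix of a linear isometry -/
noncomputable def mat (g : EuclideanSpace ℝ (Fin n) ≃ₗᵢ[ℝ] EuclideanSpace ℝ (Fin n)) :
    Matrix (Fin n) (Fin n) ℝ :=
  LinearMap.toMatrix' ((WithLp.linearEquiv 2 ℝ (Fin n → ℝ)).toLinearMap ∘ₗ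
    g.toLinearEquiv.toLinearMap ∘ₗ (WithLp.linearEquiv 2 ℝ (Fin n → ℝ)).symm.toLinearMap)

theorem mat_mulVec (g : EuclideanSpace ℝ (Fin n) ≃ₗᵢ[ℝ] EuclideanSpace ℝ (Fin n))
    (v : EuclideanSpace ℝ (Fin n)) : (mat g).mulVec (WithLp.ofLp v) = WithLp.ofLp (g v) := by
  unfold mat
  rw [LinearMap.toMatrix'_mulVec]
  rfl

theorem mat_det (g : EuclideanSpace ℝ (Fin n) ≃ₗᵢ[ℝ] EuclideanSpace ℝ (Fin n)) :
    (mat g).det ≠ 0 := by
  have h : mat g * mat g.symm = 1 := by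
    unfold mat
    rw [← LinearMap.toMatrix'_comp, ← LinearMap.toMatrix'_id]
    congr 1
    refine LinearMap.ext fun v => ?_
    simp
  intro h0
  have h1 := congrArg Matrix.det h
  rw [Matrix.det_mul, h0, Matrix.det_one, zero_mul] at h1
  exact zero_ne_one h1

/-- **The model theorem.** The lines which are closed by reflections in given spheres and
hyperplanes, followed by a given isometry, lie in a hypersurface. -/
theorem model_poly (hn : 2 ≤ n) (N : ℕ) (D : ℕ → Mir n) (hD : ∀ k, okM (D k))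
    (g : EuclideanSpace ℝ (Fin n) ≃ᵃⁱ[ℝ] EuclideanSpace ℝ (Fin n)) :
    ∃ P : MvPolynomial (Fin n ⊕ Fin n) ℂ, P ≠ 0 ∧
      ∀ (p u : ℕ → EuclideanSpace ℝ (Fin n)) (fl : ℕ → ℝ),
        (∀ k ≤ N, inner ℝ (u k) (u k) = 1) →
        (∀ k < N, p (k + 1) = p k + fl k • u k) →
        (∀ k < N, ∀ S : Sph n, D (k + 1) = Sum.inl S → 
          ‖p (k + 1) - ce S‖ ^ 2 = S.ρ ∧
          u (k + 1) = u k - (2 * inner ℝ (p (k + 1) - ce S) (u k) / S.ρ) • (p (k + 1) - ce S)) →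
        (∀ k < N, ∀ H : Flat n, D (k + 1) = Sum.inr H → 
          inner ℝ (WithLp.toLp 2 H.ν) (p (k + 1)) = H.h ∧
          u (k + 1) = u k - (2 * inner ℝ (WithLp.toLp 2 H.ν) (u k)) •
            (WithLp.toLp 2 H.ν : EuclideanSpace ℝ (Fin n))) →
        p N = g (p 0) → u N = g.linearIsometryEquiv (u 0) →
        (∑ i ∈ Finset.range N, fl i) ≠ 0 → ∀ t c : ℝ, 0 < c →
        MvPolynomial.eval (Sum.elim (fun k => (((p 0 + t • u 0) k : ℝ) : ℂ))
          (fun k => (((c • u 0) k : ℝ) : ℂ))) P = 0 := by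
  have hs2 : S_spec2 := spec2_of W12.IV.sqrt_ W12.IV.tr W40.IV.gen_ W12.IV.w_
  have hs : S_spec := spec_of W12.IV.sqrt_ W12.IV.tr W40.IV.gen_ W12.IV.w_
  obtain ⟨B, hB⟩ : ∃ B, B = mat g.linearIsometryEquiv := ⟨_, rfl⟩
  obtain ⟨A, hA⟩ : ∃ A, A = (unf D N).2.1 := ⟨_, rfl⟩
  obtain ⟨b, hb⟩ : ∃ b, b = (unf D N).2.2 := ⟨_, rfl⟩
  have hAB : (A * B).det ≠ 0 := by
    rw [Matrix.det_mul]
    exact mul_ne_zero (by rw [hA]; exact unf_det D hD N) (by rw [hB]; exact mat_det _)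
  obtain ⟨P, hP, hP'⟩ := poly_of_W Pool.W335.IV.germ2 hs2 (univ_of hs) hn (unf D N).1
    (unf_pos D hD N) (A * B) hAB (A.mulVec (WithLp.ofLp (g 0)) + b)
  refine ⟨P, hP, ?_⟩
  intro p u fl hu1 hfl hS hH hpN huN hT t c hc
  obtain ⟨T, hTd⟩ : ∃ T, T = ∑ i ∈ Finset.range N, fl i := ⟨_, rfl⟩
  obtain ⟨ch, h1, h2, h3⟩ := dyn3 N p u fl D (fun k hk => hu1 k hk.le) hfl
    (fun k hk S hk' => ⟨by have := hD (k + 1); rw [hk'] at this; exact this, hS k hk S hk'⟩)
    (fun k hk H hk' => ⟨by have := hD (k + 1); rw [hk'] at this; exact this, hH k hk H hk'⟩)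
    t c hc
  have hv : WithLp.ofLp (c • u 0) ≠ 0 := by
    intro h
    have h4 : c • u 0 = 0 := by
      ext k
      exact congrFun h k
    have h5 := (smul_eq_zero.1 h4).resolve_left hc.ne'
    have h6 := hu1 0 (Nat.zero_le _)
    rw [h5, inner_zero_left] at h6
    exact zero_ne_one h6
  rw [← hA, ← hb, ← hTd] at h3
  rw [← hTd] at hT
  have hgaff : ∀ x, g x = g.linearIsometryEquiv x + g 0 := by
    intro x
    have h4 := g.map_vadd 0 x
    simp only [vadd_eq_add, add_zero] at h4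
    exact h4
  refine hP' (WithLp.ofLp (p 0 + t • u 0)) (WithLp.ofLp (c • u 0)) ch (T / c)
    (div_ne_zero hT hc.ne') hv h1 h2 ?_
  have e1 : WithLp.ofLp (p 0 + t • u 0) - (T / c) • WithLp.ofLp (c • u 0) =
      WithLp.ofLp (p 0 - (T - t) • u 0) := by
    funext k
    simp only [Pi.sub_apply, Pi.smul_apply, PiLp.add_apply, PiLp.smul_apply, PiLp.sub_apply,
      smul_eq_mul]
    field_simp
    ring
  rw [e1]
  have e2 : ((A * B).mulVec (WithLp.ofLp (p 0 - (T - t) • u 0)) +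
      (A.mulVec (WithLp.ofLp (g 0)) + b)) =
      WithLp.ofLp (Lm A (p N - (T - t) • u N) + WithLp.toLp 2 b) := by
    rw [← Matrix.mulVec_mulVec, hB, mat_mulVec, ← add_assoc, ← Matrix.mulVec_add, hpN, huN,
      hgaff (p 0)]
    congr 1
    change A.mulVec _ = A.mulVec _
    congr 1
    rw [map_sub, map_smul]
    funext k
    simp only [Pi.add_apply, PiLp.add_apply, PiLp.smul_apply, PiLp.sub_apply, smul_eq_mul]
    ring
  have e3 : (A * B).mulVec (WithLp.ofLp (c • u 0)) = WithLp.ofLp (Lm A (c • u N)) := by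
    rw [← Matrix.mulVec_mulVec, hB, mat_mulVec, huN, map_smul]
    rfl
  rw [e2, e3]
  exact h3

end Pool.Agent.TH746.UM
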