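import Mathlib

set_option autoImplicit false

open MeasureTheory Set Filter Topology Asymptotics Metric
open scoped ContDiff Pointwise

namespace Pool.Agent.TH746.UM

section J
variable {V W : Type*} [NormedAddCommGroup V] [NormedSpace ℝ V] [NormedAddCommGroup W]
  [NormedSpace ℝ W]

/-- Sequences approaching a point in a given direction at speed `r`. -/
def Appr (r : ℕ → ℝ) (y : ℕ → V) (x h : V) : Prop :=
  (∀ j, 0 < r j) ∧ Tendsto r atTop (𝓝 0) ∧ Tendsto (fun j => (r j)⁻¹ • (y j - x)) atTop (𝓝 h)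

theorem Appr.bigO {r : ℕ → ℝ} {y : ℕ → V} {x h : V} (H : Appr r y x h) :
    (fun j => y j - x) =O[atTop] r := by
  obtain ⟨h1, h2, h3⟩ := H
  have h4 : (fun j => y j - x) = fun j => r j • ((r j)⁻¹ • (y j - x)) := by
    funext j
    rw [smul_smul, mul_inv_cancel₀ (h1 j).ne', one_smul]
  rw [h4]
  have h5 := (isBigO_refl r atTop).smul (h3.isBigO_one ℝ)
  refine h5.trans ?_
  simp only [smul_eq_mul, mul_one]
  exact isBigO_refl _ _

theorem Appr.tendsto {r : ℕ → ℝ} {y : ℕ → V} {x h : V} (H : Appr r y x h) :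
    Tendsto y atTop (𝓝 x) := by
  have h1 := H.bigO.trans_tendsto H.2.1
  have h2 := h1.add_const x
  simpa using h2

/-- An analytic function which is flat along sequences in all directions vanishes. -/
theorem jet_zero {f : V → W} {x : V} (hf : AnalyticAt ℝ f x)
    (H : ∀ h : V, ∃ (r : ℕ → ℝ) (y : ℕ → V), Appr r y x h ∧
      ∀ N : ℕ, (fun j => f (y j)) =O[atTop] (fun j => r j ^ N)) :
    ∀ᶠ y in 𝓝 x, f y = 0 := by
  obtain ⟨p, hp⟩ := hf
  have key : ∀ m : ℕ, ∀ h : V, p m (fun _ => h) = 0 := by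
    intro m
    induction m using Nat.strong_induction_on with
    | _ m ih =>
      intro h
      obtain ⟨r, y, hA, hN⟩ := H h
      have hr := hA.1
      have h1 := hp.isBigO_sub_partialSum_pow (m + 1)
      have h2 : Tendsto (fun j => y j - x) atTop (𝓝 0) := hA.bigO.trans_tendsto hA.2.1
      have h3 := h1.comp_tendsto h2
      have h4 : (fun j => p m (fun _ => y j - x)) =O[atTop] fun j => r j ^ (m + 1) := by
        have h5 : (fun j => ‖y j - x‖ ^ (m + 1)) =O[atTop] fun j => r j ^ (m + 1) :=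
          hA.bigO.norm_left.pow (m + 1)
        have h6 := (hN (m + 1)).sub (h3.trans h5)
        refine h6.congr_left ?_
        intro j
        simp only [Function.comp_apply, add_sub_cancel]
        rw [FormalMultilinearSeries.partialSum, Finset.sum_range_succ,
          Finset.sum_eq_zero (fun k hk => ih k (Finset.mem_range.1 hk) _)]
        abel
      have h7 : Tendsto (fun j => p m (fun _ => (r j)⁻¹ • (y j - x))) atTop
          (𝓝 (p m (fun _ => h))) := by
        have hc : Continuous (fun h : V => p m (fun _ => h)) :=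
          (p m).cont.comp (continuous_pi fun _ => continuous_id)
        exact (hc.tendsto h).comp hA.2.2
      have h8 : Tendsto (fun j => p m (fun _ => (r j)⁻¹ • (y j - x))) atTop (𝓝 0) := by
        have h9 : (fun j => p m (fun _ => (r j)⁻¹ • (y j - x))) =
            fun j => (r j ^ m)⁻¹ • p m (fun _ => y j - x) := by
          funext j
          rw [(p m).map_smul_univ]
          simp
        rw [h9]
        have h10 : (fun j => (r j ^ m)⁻¹ • p m (fun _ => y j - x)) =O[atTop]
            fun j => (r j ^ m)⁻¹ • (r j ^ (m + 1)) :=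
          (isBigO_refl (fun j => (r j ^ m)⁻¹) atTop).smul h4
        have h11 : (fun j => (r j ^ m)⁻¹ • (r j ^ (m + 1))) = r := by
          funext j
          have := (hr j).ne'
          rw [smul_eq_mul, pow_succ]
          field_simp
        rw [h11] at h10
        exact h10.trans_tendsto hA.2.1
      exact tendsto_nhds_unique h7 h8
  have h1 := hp.eventually_hasSum
  have h2 : ∀ᶠ y in 𝓝 (0 : V), f (x + y) = 0 := by
    filter_upwards [h1] with y hy
    simp only [key] at hy
    exact hy.unique hasSum_zero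
  have h3 : Tendsto (fun y => y - x) (𝓝 x) (𝓝 0) := by
    have := (continuous_id.sub continuous_const).tendsto x (f := fun y : V => id y - x)
    simpa using this
  filter_upwards [h3.eventually h2] with y hy
  simpa using hy

end J

section D
variable {Z : Type*} [NormedAddCommGroup Z] [NormedSpace ℝ Z] [FiniteDimensional ℝ Z]
  [MeasurableSpace Z] [BorelSpace Z]

/-- At almost every point of a set the set contains sequences in all directions. -/
theorem exists_appr (μ : Measure Z) [μ.IsAddHaarMeasure] (A : Set Z) :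
    ∃ B : Set Z, μ B = 0 ∧ ∀ z ∈ A \ B, ∀ ζ : Z, ∃ (r : ℕ → ℝ) (y : ℕ → Z),
      Appr r y z ζ ∧ ∀ j, y j ∈ A := by
  have h1 := Besicovitch.ae_tendsto_measure_inter_div μ A
  obtain ⟨P, hP⟩ : ∃ P : Z → Prop, P = fun x => Tendsto
    (fun r => μ (A ∩ closedBall x r) / μ (closedBall x r)) (𝓝[>] 0) (𝓝 1) := ⟨_, rfl⟩
  have h2 : ∀ᵐ x ∂μ.restrict A, P x := by rw [hP]; exact h1
  rw [ae_iff] at h2
  have h3 : μ ({x | ¬ P x} ∩ A) = 0 :=
    le_antisymm ((Measure.le_restrict_apply A {x | ¬ P x}).trans h2.le) bot_le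
  refine ⟨{x | ¬ P x} ∩ A, h3, ?_⟩
  rintro z ⟨hzA, hzB⟩ ζ
  have hz : P z := by
    by_contra h
    exact hzB ⟨h, hzA⟩
  rw [hP] at hz
  have h4 : ∀ ε : ℝ, 0 < ε → ∀ᶠ r in 𝓝[>] (0 : ℝ), (A ∩ ({z} + r • closedBall ζ ε)).Nonempty :=
    fun ε hε => Measure.eventually_nonempty_inter_smul_of_density_one μ A z hz _
      measurableSet_closedBall (measure_closedBall_pos μ ζ hε).ne'
  have h5 : ∀ j : ℕ, ∃ (r : ℝ) (y : Z), 0 < r ∧ r < 1 / ((j : ℝ) + 1) ∧ y ∈ A ∧
      ‖r⁻¹ • (y - z) - ζ‖ ≤ 1 / ((j : ℝ) + 1) := by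
    intro j
    have hj : (0 : ℝ) < 1 / ((j : ℝ) + 1) := by positivity
    have h6 : ∀ᶠ r in 𝓝[>] (0 : ℝ), r < 1 / ((j : ℝ) + 1) :=
      nhdsWithin_le_nhds (Iio_mem_nhds hj)
    obtain ⟨r, ⟨y, hyA, hy⟩, hr1, hr2⟩ := ((h4 _ hj).and (h6.and self_mem_nhdsWithin)).exists
    have hr2' : 0 < r := hr2
    obtain ⟨a, ha, rfl⟩ : ∃ a, a ∈ closedBall ζ (1 / ((j : ℝ) + 1)) ∧ y = z + r • a := by
      simp only [mem_smul_set, image_add_left, mem_preimage, singleton_add] at hy
      rcases hy with ⟨a, az, ha⟩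
      exact ⟨a, az, by simp only [ha, add_neg_cancel_left]⟩
    refine ⟨r, z + r • a, hr2', hr1, hyA, ?_⟩
    rw [add_sub_cancel_left, smul_smul, inv_mul_cancel₀ hr2'.ne', one_smul]
    exact mem_closedBall_iff_norm.1 ha
  choose r y hr hr1 hy hn using h5
  have hlim : Tendsto (fun j : ℕ => 1 / ((j : ℝ) + 1)) atTop (𝓝 0) :=
    tendsto_one_div_add_atTop_nhds_zero_nat
  refine ⟨r, y, ⟨hr, squeeze_zero (fun j => (hr j).le) (fun j => (hr1 j).le) hlim, ?_⟩, hy⟩
  rw [tendsto_iff_norm_sub_tendsto_zero]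
  exact squeeze_zero (fun j => norm_nonneg _) hn hlim

end D

end Pool.Agent.TH746.UM
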