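import Pool.Agent.TH746.UM.NoOpen
import Pool.Agent.TH746.UM.Jet

set_option autoImplicit false

open Set Filter Topology Asymptotics
open scoped InnerProductSpace ContDiff
open Pool.Agent.H721R2.Quart Pool.Agent.H721R2.Ivrii

namespace Pool.Agent.TH746.UM

variable {E Z : Type*} [NormedAddCommGroup E] [InnerProductSpace ℝ E] [FiniteDimensional ℝ E]
  [NormedAddCommGroup Z] [NormedSpace ℝ Z]

omit [FiniteDimensional ℝ E] in
theorem isom_eq (g : E ≃ᵃⁱ[ℝ] E) (x : E) : g x = g.linearIsometryEquiv x + g 0 := by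
  have h4 := g.map_vadd 0 x
  simp only [vadd_eq_add, add_zero] at h4
  exact h4

omit [FiniteDimensional ℝ E] in
theorem isom_cd (g : E ≃ᵃⁱ[ℝ] E) (n : WithTop ℕ∞) : ContDiff ℝ n g := by
  have h : (g : E → E) = fun x => g.linearIsometryEquiv x + g 0 := funext (isom_eq g)
  rw [h]
  exact g.linearIsometryEquiv.contDiff.add contDiff_const

/-- The closing error of the model chain. -/
noncomputable def clo (g : E ≃ᵃⁱ[ℝ] E) (S : E × E → E × E) (y : E × E) : E × E :=
  ((S y).2 - g.linearIsometryEquiv y.2,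
    ⟪y.2, y.2⟫_ℝ • ((S y).1 - g y.1) -
      ⟪(S y).1 - g y.1, g.linearIsometryEquiv y.2⟫_ℝ • g.linearIsometryEquiv y.2)

omit [FiniteDimensional ℝ E] in
theorem clo_cd {g : E ≃ᵃⁱ[ℝ] E} {S : E × E → E × E} {y : E × E} (h : ContDiffAt ℝ ω S y) :
    ContDiffAt ℝ ω (clo g S) y := by
  have hg : ContDiff ℝ ω g := isom_cd g ω
  have hl : ContDiff ℝ ω g.linearIsometryEquiv := g.linearIsometryEquiv.contDiff
  have h1 : ContDiffAt ℝ ω (fun y : E × E => g y.1) y := hg.contDiffAt.comp y contDiffAt_fst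
  have h2 : ContDiffAt ℝ ω (fun y : E × E => g.linearIsometryEquiv y.2) y :=
    hl.contDiffAt.comp y contDiffAt_snd
  have h3 : ContDiffAt ℝ ω (fun y => (S y).1 - g y.1) y := h.fst.sub h1
  exact (h.snd.sub h2).prodMk ((((contDiffAt_snd.inner ℝ contDiffAt_snd)).smul h3).sub
    ((h3.inner ℝ h2).smul h2))

/-- Sequences along differentiable maps. -/
theorem Appr.map {W : Type*} [NormedAddCommGroup W] [NormedSpace ℝ W] {r : ℕ → ℝ} {y : ℕ → Z}
    {z ζ : Z} (H : Appr r y z ζ) {f : Z → W} (hf : DifferentiableAt ℝ f z) :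
    Tendsto (fun j => (r j)⁻¹ • (f (y j) - f z)) atTop (𝓝 (fderiv ℝ f z ζ)) := by
  have h1 := hf.hasFDerivAt.hasFDerivWithinAt (s := univ)
  have h0 : Tendsto (fun j => y j - z) atTop (𝓝 0) := H.bigO.trans_tendsto H.2.1
  have h2 := h1.lim (l := atTop) (c := fun j => (r j)⁻¹) (d := fun j => y j - z) (v := ζ)
    h0 (Eventually.of_forall fun _ => mem_univ _) H.2.2
  refine h2.congr fun j => ?_
  rw [add_sub_cancel]

/-- The data of a family of trajectories at a point `z0`, which is approached in all directions by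
closed trajectories, with mirrors which are spheres and hyperplanes up to a flat error. -/
theorem red {n : ℕ} (hn : 2 ≤ n) {N : ℕ} (hN : 1 ≤ N)
    {g : EuclideanSpace ℝ (Fin n) ≃ᵃⁱ[ℝ] EuclideanSpace ℝ (Fin n)}
    {x e ν : ℕ → Z → EuclideanSpace ℝ (Fin n)} {L : ℕ → Z → ℝ} {A : Set Z} {z0 : Z}
    {lam : ℕ → ℝ}
    (hz0 : z0 ∈ A)
    (dx : ∀ k ≤ N, DifferentiableAt ℝ (x k) z0) (de : ∀ k ≤ N, DifferentiableAt ℝ (e k) z0)
    (dL : ∀ k < N, ContinuousAt (L k) z0) (dν : ∀ k, ContinuousAt (ν k) z0)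
    (hLp : ∀ k < N, 0 < L k z0)
    (hx : ∀ k < N, ∀ z, x (k + 1) z = x k z + L k z • e k z)
    (he : ∀ k < N, ∀ z, e (k + 1) z = rf (ν (k + 1) z) (e k z))
    (hν : ∀ k, ∀ z ∈ A, ⟪ν k z, ν k z⟫_ℝ = 1)
    (hee : ⟪e 0 z0, e 0 z0⟫_ℝ = 1)
    (htr : ∀ k < N, ⟪ν (k + 1) z0, e k z0⟫_ℝ ≠ 0) (htr0 : ⟪ν 0 z0, e 0 z0⟫_ℝ ≠ 0)
    (hcx : ∀ z ∈ A, x N z = g (x 0 z)) (hce : ∀ z ∈ A, e N z = g.linearIsometryEquiv (e 0 z))
    (hm0 : ∀ k < N, ∀ M : ℕ, (fun z => mir (x (k + 1) z0) (ν (k + 1) z0) (lam (k + 1))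
      (x (k + 1) z)) =O[𝓝 z0] fun z => ‖z - z0‖ ^ M)
    (hm1 : ∀ k < N, ∀ M : ℕ, (fun z => ν (k + 1) z - (lam (k + 1) • (x (k + 1) z - x (k + 1) z0) +
      ν (k + 1) z0)) =O[𝓝 z0] fun z => ‖z - z0‖ ^ M)
    (hsurj : ∀ Y δ, ⟪ν 0 z0, Y⟫_ℝ = 0 → ⟪e 0 z0, δ⟫_ℝ = 0 →
      ∃ ζ, fderiv ℝ (x 0) z0 ζ = Y ∧ fderiv ℝ (e 0) z0 ζ = δ)
    (happr : ∀ ζ : Z, ∃ (r : ℕ → ℝ) (y : ℕ → Z), Appr r y z0 ζ ∧ ∀ j, y j ∈ A) : False := by
  obtain ⟨p, hp⟩ : ∃ p : ℕ → EuclideanSpace ℝ (Fin n), p = fun k => x k z0 := ⟨_, rfl⟩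
  obtain ⟨u, hu⟩ : ∃ u : ℕ → EuclideanSpace ℝ (Fin n), u = fun k => e k z0 := ⟨_, rfl⟩
  obtain ⟨t, ht⟩ : ∃ t : ℕ → ℝ, t = fun k => L k z0 := ⟨_, rfl⟩
  obtain ⟨m, hm⟩ : ∃ m : ℕ → EuclideanSpace ℝ (Fin n), m = fun k => ν k z0 := ⟨_, rfl⟩
  obtain ⟨G, hG⟩ : ∃ G : ℕ → EuclideanSpace ℝ (Fin n) → ℝ, G = fun k => mir (p k) (m k) (lam k) :=
    ⟨_, rfl⟩
  have hGg : ∀ k y, gradient (G k) y = lam k • (y - p k) + m k := by
    intro k y; rw [hG]; exact mir_grad _ _ _ _
  have hGg0 : ∀ k, gradient (G k) (p k) = m k := by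
    intro k; rw [hGg, sub_self, smul_zero, zero_add]
  have hmm : ∀ k, ⟪m k, m k⟫_ℝ = 1 := by intro k; rw [hm]; exact hν k z0 hz0
  have hdirm : ∀ v : EuclideanSpace ℝ (Fin n), ⟪v, v⟫_ℝ = 1 → dir v = v := by
    intro v hv
    have h1 : ‖v‖ = 1 := by
      rw [real_inner_self_eq_norm_sq] at hv
      nlinarith [norm_nonneg v]
    unfold dir
    rw [h1, inv_one, one_smul]
  have hmne : ∀ k, m k ≠ 0 := by
    intro k h
    have := hmm k
    rw [h, inner_zero_left] at this
    exact zero_ne_one this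
  obtain ⟨T, s, hs0, hsb, hT, hs1, hsz, hsh⟩ := chain_shadow (N := N) (p := p) (u := u) (t := t)
    (G := G) (fun k _ => by rw [hG]; exact (mir_cd _ _ _ ω).contDiffAt)
    (fun k _ => by rw [hG]; exact mir_self _ _ _)
    (fun k hk => by rw [hGg0, hm, hu]; exact htr k hk)
    (fun k hk => by rw [hp, ht, hu]; exact hx k hk z0)
    (fun k hk => by rw [hGg0, hdirm _ (hmm _), hm, hu]; exact he k hk z0)
  have hpN : p N = g (p 0) := by rw [hp]; exact hcx z0 hz0
  have huN : u N = g.linearIsometryEquiv (u 0) := by rw [hu]; exact hce z0 hz0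
  have hu0 : ⟪u 0, u 0⟫_ℝ = 1 := by rw [hu]; exact hee
  have hcd : ContDiffAt ℝ ω (clo g (s N)) (p 0, u 0) := clo_cd (hsb N le_rfl).1
  have hflat : ∀ᶠ y in 𝓝 (p 0, u 0), clo g (s N) y = 0 := by
    refine jet_zero hcd.analyticAt ?_
    rintro ⟨h1, h2⟩
    obtain ⟨τ, hτ⟩ : ∃ τ, τ = ⟪m 0, h1⟫_ℝ / ⟪m 0, u 0⟫_ℝ := ⟨_, rfl⟩
    obtain ⟨κ, hκ⟩ : ∃ κ, κ = ⟪u 0, h2⟫_ℝ := ⟨_, rfl⟩
    have hmu : ⟪m 0, u 0⟫_ℝ ≠ 0 := by rw [hm, hu]; exact htr0
    obtain ⟨ζ, hζ1, hζ2⟩ := hsurj (h1 - τ • u 0) (h2 - κ • u 0)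
      (by
        have : ⟪m 0, h1 - τ • u 0⟫_ℝ = 0 := by
          rw [inner_sub_right, inner_smul_right, hτ, div_mul_cancel₀ _ hmu, sub_self]
        rw [hm] at this
        exact this)
      (by
        have : ⟪u 0, h2 - κ • u 0⟫_ℝ = 0 := by
          rw [inner_sub_right, inner_smul_right, hκ, hu0, mul_one, sub_self]
        rw [hu] at this ⊢
        exact this)
    obtain ⟨r, z, hA, hzA⟩ := happr ζ
    have hzt := hA.tendsto
    obtain ⟨c, hc⟩ : ∃ c : ℕ → ℝ, c = fun i => Real.exp (r i * κ) := ⟨_, rfl⟩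
    have hcp : ∀ i, 0 < c i := fun i => by rw [hc]; exact Real.exp_pos _
    have hct : Tendsto c atTop (𝓝 1) := by
      rw [hc]
      have h3 := (Real.continuous_exp.tendsto (0 * κ)).comp (hA.2.1.mul_const κ)
      rw [zero_mul, Real.exp_zero] at h3
      exact h3
    have hcr : Tendsto (fun i => (r i)⁻¹ * (c i - 1)) atTop (𝓝 κ) := by
      have h3 : HasDerivAt (fun r : ℝ => Real.exp (r * κ)) (Real.exp (0 * κ) * (1 * κ)) 0 :=
        ((hasDerivAt_id (0 : ℝ)).mul_const κ).exp
      rw [zero_mul, Real.exp_zero, one_mul, one_mul] at h3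
      have h4 := h3.tendsto_slope_zero_right
      have h5 : Tendsto r atTop (𝓝[>] 0) :=
        tendsto_nhdsWithin_iff.2 ⟨hA.2.1, Eventually.of_forall hA.1⟩
      refine (h4.comp h5).congr fun i => ?_
      simp only [Function.comp_apply, zero_add, zero_mul, Real.exp_zero, smul_eq_mul]
      rw [hc]
    obtain ⟨y, hy⟩ : ∃ y : ℕ → EuclideanSpace ℝ (Fin n) × EuclideanSpace ℝ (Fin n),
      y = fun i => (x 0 (z i) + (r i * τ) • e 0 (z i), c i • e 0 (z i)) := ⟨_, rfl⟩
    have tx : ∀ k ≤ N, Tendsto (fun i => x k (z i)) atTop (𝓝 (p k)) := by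
      intro k hk
      rw [hp]
      exact (dx k hk).continuousAt.tendsto.comp hzt
    have te : ∀ k ≤ N, Tendsto (fun i => e k (z i)) atTop (𝓝 (u k)) := by
      intro k hk
      rw [hu]
      exact (de k hk).continuousAt.tendsto.comp hzt
    have tL : ∀ k < N, Tendsto (fun i => L k (z i)) atTop (𝓝 (t k)) := by
      intro k hk
      rw [ht]
      exact (dL k hk).tendsto.comp hzt
    have tν : ∀ k, Tendsto (fun i => ν k (z i)) atTop (𝓝 (m k)) := by
      intro k
      rw [hm]
      exact (dν k).tendsto.comp hzt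
    have hyA : Appr r y (p 0, u 0) (h1, h2) := by
      refine ⟨hA.1, hA.2.1, ?_⟩
      have h3 := (hA.map (dx 0 (Nat.zero_le _))).add ((te 0 (Nat.zero_le _)).const_smul τ)
      rw [hζ1, sub_add_cancel] at h3
      have h4 := ((hct.smul_const (1 : ℝ)).smul (hA.map (de 0 (Nat.zero_le _)))).add
        (hcr.smul_const (u 0))
      rw [hζ2, one_smul, one_smul, sub_add_cancel] at h4
      refine (h3.prodMk_nhds h4).congr fun i => ?_
      have hri := (hA.1 i).ne'
      rw [hy]
      refine Prod.ext ?_ ?_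
      · change (r i)⁻¹ • (x 0 (z i) - x 0 z0) + τ • e 0 (z i) =
          (r i)⁻¹ • (x 0 (z i) + (r i * τ) • e 0 (z i) - p 0)
        have e1 : x 0 (z i) + (r i * τ) • e 0 (z i) - p 0 =
          (x 0 (z i) - x 0 z0) + r i • (τ • e 0 (z i)) := by rw [hp]; module
        rw [e1, smul_add, smul_smul (r i)⁻¹ (r i), inv_mul_cancel₀ hri, one_smul]
      · change (c i • (1 : ℝ)) • ((r i)⁻¹ • (e 0 (z i) - e 0 z0)) + ((r i)⁻¹ * (c i - 1)) • u 0 =
          (r i)⁻¹ • (c i • e 0 (z i) - u 0)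
        rw [hu, smul_eq_mul, mul_one]
        module
    have hyt := hyA.tendsto
    refine ⟨r, y, hyA, fun M => ?_⟩
    -- the shifted trajectories
    obtain ⟨X, hX0, hXk⟩ : ∃ X : ℕ → ℕ → EuclideanSpace ℝ (Fin n), (X 0 = fun i => (y i).1) ∧
        ∀ k, X (k + 1) = fun i => x (k + 1) (z i) :=
      ⟨fun k => Nat.casesOn k (fun i => (y i).1) (fun k i => x (k + 1) (z i)), rfl, fun k => rfl⟩
    obtain ⟨LL, hL0, hLk⟩ : ∃ LL : ℕ → ℕ → ℝ,
        (LL 0 = fun i => (L 0 (z i) - r i * τ) / c i) ∧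
        ∀ k, LL (k + 1) = fun i => L (k + 1) (z i) / c i :=
      ⟨fun k => Nat.casesOn k (fun i => (L 0 (z i) - r i * τ) / c i)
        (fun k i => L (k + 1) (z i) / c i), rfl, fun k => rfl⟩
    have hzr : ∀ M : ℕ, (fun i => ‖z i - z0‖ ^ M) =O[atTop] fun i => r i ^ M := fun M =>
      hA.bigO.norm_left.pow M
    have hyt1 : Tendsto (fun i => (y i).1) atTop (𝓝 (p 0)) :=
      (continuous_fst.tendsto (p 0, u 0)).comp hyt
    have main := hsh (fun i => r i ^ M) X (fun k i => c i • e k (z i)) LL y ?_ ?_ ?_ hyt ?_ ?_ ?_ ?_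
      N le_rfl
    · -- the closing error
      obtain ⟨M', rfl⟩ : ∃ M', N = M' + 1 := ⟨N - 1, by omega⟩
      rw [hXk] at main
      have m1 : (fun i => x (M' + 1) (z i) - (s (M' + 1) (y i)).1) =O[atTop] fun i => r i ^ M :=
        IsBigO.trans (isBigO_fst_prod (l := atTop)
          (f' := fun i => x (M' + 1) (z i) - (s (M' + 1) (y i)).1)
          (g' := fun i => c i • e (M' + 1) (z i) - (s (M' + 1) (y i)).2)) main
      have m2 : (fun i => c i • e (M' + 1) (z i) - (s (M' + 1) (y i)).2) =O[atTop]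
          fun i => r i ^ M :=
        IsBigO.trans (isBigO_snd_prod (l := atTop)
          (f' := fun i => x (M' + 1) (z i) - (s (M' + 1) (y i)).1)
          (g' := fun i => c i • e (M' + 1) (z i) - (s (M' + 1) (y i)).2)) main
      have q1 : (fun i => (s (M' + 1) (y i)).2 - g.linearIsometryEquiv (y i).2) =O[atTop]
          fun i => r i ^ M := by
        refine m2.neg_left.congr_left fun i => ?_
        rw [hce (z i) (hzA i), hy]
        simp only [map_smul]
        abel
      have q2 : (fun i => (s (M' + 1) (y i)).1 - x (M' + 1) (z i)) =O[atTop] fun i => r i ^ M :=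
        m1.neg_left.congr_left fun i => by abel
      have hyt2 : Tendsto (fun i => (y i).2) atTop (𝓝 (u 0)) :=
        (continuous_snd.tendsto (p 0, u 0)).comp hyt
      have hgy : Tendsto (fun i => g.linearIsometryEquiv (y i).2) atTop
          (𝓝 (g.linearIsometryEquiv (u 0))) :=
        (g.linearIsometryEquiv.continuous.tendsto _).comp hyt2
      have q3 : (fun i => ⟪(y i).2, (y i).2⟫_ℝ • ((s (M' + 1) (y i)).1 - x (M' + 1) (z i)) -
          ⟪(s (M' + 1) (y i)).1 - x (M' + 1) (z i), g.linearIsometryEquiv (y i).2⟫_ℝ •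
            g.linearIsometryEquiv (y i).2) =O[atTop] fun i => r i ^ M := by
        have hb1 : (fun i => ⟪(y i).2, (y i).2⟫_ℝ) =O[atTop] (fun _ => (1 : ℝ)) :=
          (hyt2.inner hyt2).isBigO_one ℝ
        have hb2 : (fun i => g.linearIsometryEquiv (y i).2) =O[atTop] (fun _ => (1 : ℝ)) :=
          hgy.isBigO_one ℝ
        have b1 := hb1.smul q2
        have b2 : (fun i => ⟪(s (M' + 1) (y i)).1 - x (M' + 1) (z i),
            g.linearIsometryEquiv (y i).2⟫_ℝ) =O[atTop] fun i => r i ^ M * 1 := by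
          refine IsBigO.trans (IsBigO.of_bound 1 (Eventually.of_forall fun i => ?_))
            (q2.norm_left.mul hb2.norm_left)
          rw [one_mul, Real.norm_eq_abs, norm_mul, norm_norm, norm_norm]
          exact abs_real_inner_le_norm _ _
        have b3 := b2.smul hb2
        simp only [smul_eq_mul, mul_one, one_mul] at b1 b3
        exact b1.sub b3
      unfold clo
      refine q1.prod_left (q3.congr_left fun i => ?_)
      have e1 : g (y i).1 = x (M' + 1) (z i) + (r i * τ / c i) • g.linearIsometryEquiv (y i).2 := by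
        rw [hcx (z i) (hzA i), hy]
        simp only
        rw [isom_eq g (x 0 (z i) + (r i * τ) • e 0 (z i)), isom_eq g (x 0 (z i)), map_add,
          map_smul, map_smul, smul_smul, div_mul_cancel₀ _ (hcp i).ne']
        abel
      have e2 : ⟪g.linearIsometryEquiv (y i).2, g.linearIsometryEquiv (y i).2⟫_ℝ =
          ⟪(y i).2, (y i).2⟫_ℝ := g.linearIsometryEquiv.inner_map_map _ _
      rw [e1, sub_add_eq_sub_sub]
      generalize (s (M' + 1) (y i)).1 - x (M' + 1) (z i) = D
      generalize g.linearIsometryEquiv (y i).2 = W at e2 ⊢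
      rw [inner_sub_left, real_inner_smul_left, e2, smul_sub, sub_smul]
      module
    · intro k hk
      cases k with
      | zero => rw [hX0]; exact hyt1
      | succ k => rw [hXk]; exact tx (k + 1) hk
    · intro k hk
      have := hct.smul (te k hk)
      rwa [one_smul] at this
    · intro k hk
      cases k with
      | zero =>
        rw [hL0]
        have h3 := ((tL 0 hk).sub (hA.2.1.mul_const τ)).div hct one_ne_zero
        rwa [zero_mul, sub_zero, div_one] at h3
      | succ k =>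
        rw [hLk]
        have h3 := (tL (k + 1) hk).div hct one_ne_zero
        rwa [div_one] at h3
    · rw [hX0]
      have h3 : (fun i => ((y i).1, c i • e 0 (z i)) - y i) = fun _ => 0 := by
        funext i
        rw [hy]
        simp
      rw [h3]
      exact isBigO_zero _ _
    · intro k hk i
      have hci := (hcp i).ne'
      cases k with
      | zero =>
        rw [hXk, hX0, hL0, hy]
        simp only
        rw [hx 0 hk, smul_smul, div_mul_cancel₀ _ hci]
        module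
      | succ k =>
        rw [hXk, hXk, hLk]
        simp only
        rw [hx (k + 1) hk, smul_smul, div_mul_cancel₀ _ hci]
    · intro k hk
      rw [hXk]
      have h3 := (hm0 k hk M).comp_tendsto hzt
      have h4 := h3.trans (hzr M)
      rw [hG, hp, hm]
      exact h4
    · intro k hk
      rw [hXk]
      have h3 := ((hm1 k hk M).comp_tendsto hzt).trans (hzr M)
      have tg : Tendsto (fun i => gradient (G (k + 1)) (x (k + 1) (z i))) atTop
          (𝓝 (m (k + 1))) := by
        have h5 : ContinuousAt (gradient (G (k + 1))) (p (k + 1)) := by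
          have h6 : gradient (G (k + 1)) = fun y => lam (k + 1) • (y - p (k + 1)) + m (k + 1) :=
            funext (hGg (k + 1))
          rw [h6]
          fun_prop
        have h7 := h5.tendsto.comp (tx (k + 1) hk)
        rw [hGg0] at h7
        exact h7
      have h4 : (fun i => dir (ν (k + 1) (z i)) - dir (gradient (G (k + 1)) (x (k + 1) (z i))))
          =O[atTop] fun i => r i ^ M := by
        refine bigO_comp (cd_dir (hmne (k + 1))) (tν (k + 1)) tg ?_
        refine h3.congr_left fun i => ?_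
        simp only [Function.comp_apply]
        rw [hGg, hp, hm]
      have h8 : (fun i => rf (ν (k + 1) (z i)) (e k (z i)) -
          rf (dir (gradient (G (k + 1)) (x (k + 1) (z i)))) (e k (z i))) =O[atTop]
          fun i => r i ^ M := by
        have hΦ : ContDiffAt ℝ 1
            (fun w : EuclideanSpace ℝ (Fin n) × EuclideanSpace ℝ (Fin n) => rf w.1 w.2)
            (m (k + 1), u k) := cd_rf contDiffAt_fst contDiffAt_snd
        have h9 : Tendsto (fun i => dir (gradient (G (k + 1)) (x (k + 1) (z i)))) atTop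
            (𝓝 (m (k + 1))) := by
          have h10 := ((cd_dir (n := 1) (hmne (k + 1))).continuousAt).tendsto.comp tg
          rw [hdirm _ (hmm _)] at h10
          exact h10
        refine bigO_comp hΦ ((tν (k + 1)).prodMk_nhds (te k hk.le))
          (h9.prodMk_nhds (te k hk.le)) ?_
        have h11 : (fun i => ((ν (k + 1) (z i), e k (z i)) : EuclideanSpace ℝ (Fin n) ×
            EuclideanSpace ℝ (Fin n)) -
            (dir (gradient (G (k + 1)) (x (k + 1) (z i))), e k (z i))) =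
            fun i => (dir (ν (k + 1) (z i)) -
              dir (gradient (G (k + 1)) (x (k + 1) (z i))), 0) := by
          funext i
          rw [hdirm _ (hν (k + 1) _ (hzA i))]
          simp
        rw [h11]
        exact h4.prod_left (isBigO_zero _ _)
      have h12 := (hct.isBigO_one ℝ).smul h8
      simp only [smul_eq_mul, one_mul] at h12
      refine h12.congr_left fun i => ?_
      rw [he k hk, G3_rf_smul, smul_sub]
  refine no_open hn hN hmm (fun k hk => by rw [ht]; exact hLp k hk) hu0 hpN hs0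
    (fun k hk => ⟨(hsb k hk).1.continuousAt, (hsb k hk).2⟩) hT
    (fun k hk y => by rw [hs1 k hk y, hG]) (fun k hk => by
      have := hsz k hk
      rw [hG] at this
      exact this) ?_
  filter_upwards [hflat] with y hy
  unfold clo at hy
  have h1 := congrArg Prod.fst hy
  have h2 := congrArg Prod.snd hy
  simp only [Prod.fst_zero, Prod.snd_zero] at h1 h2
  exact ⟨sub_eq_zero.1 h1, sub_eq_zero.1 h2⟩

end Pool.Agent.TH746.UM
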