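import Mathlib

set_option autoImplicit false

open Set Filter Topology
open scoped InnerProductSpace ContDiff

namespace Pool.Agent.TH746.UM

section Shear
variable {V : Type*} [NormedAddCommGroup V] [NormedSpace ℝ V]

/-- The linear equivalence `(v, s) ↦ (v, φ v + c s)`. -/
noncomputable def shear (φ : V →L[ℝ] ℝ) (c : ℝ) (hc : c ≠ 0) : (V × ℝ) ≃L[ℝ] (V × ℝ) :=
  ContinuousLinearEquiv.equivOfInverse
    ((ContinuousLinearMap.fst ℝ V ℝ).prod
      (φ.comp (ContinuousLinearMap.fst ℝ V ℝ) + c • ContinuousLinearMap.snd ℝ V ℝ))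
    ((ContinuousLinearMap.fst ℝ V ℝ).prod
      (c⁻¹ • (ContinuousLinearMap.snd ℝ V ℝ - φ.comp (ContinuousLinearMap.fst ℝ V ℝ))))
    (by
      rintro ⟨v, s⟩
      simp [hc])
    (by
      rintro ⟨v, s⟩
      simp [hc])

theorem shear_apply (φ : V →L[ℝ] ℝ) (c : ℝ) (hc : c ≠ 0) (v : V) (s : ℝ) :
    shear φ c hc (v, s) = (v, φ v + c * s) := rfl

/-- The inverse function theorem for `(v, s) ↦ (v, f (v, s))`, at all nearby points. -/
theorem hit_gen [CompleteSpace V] {f : V × ℝ → ℝ} {n : WithTop ℕ∞} (hn : 1 ≤ n) {v0 : V} {s0 : ℝ}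
    (hf : ∀ᶠ w in 𝓝 (v0, s0), ContDiffAt ℝ n f w) (ht : fderiv ℝ f (v0, s0) (0, 1) ≠ 0) :
    ∃ Λ : V × ℝ → ℝ, Λ (v0, f (v0, s0)) = s0 ∧
      (∀ᶠ w in 𝓝 (v0, f (v0, s0)), ContDiffAt ℝ n Λ w) ∧
      (∀ᶠ w in 𝓝 (v0, f (v0, s0)), f (w.1, Λ w) = w.2) ∧
      (∀ᶠ w in 𝓝 (v0, s0), Λ (w.1, f w) = w.2) := by
  have hn0 : n ≠ 0 := (zero_lt_one.trans_le hn).ne'
  obtain ⟨Θ, hΘ⟩ : ∃ Θ : V × ℝ → V × ℝ, Θ = fun w => (w.1, f w) := ⟨_, rfl⟩
  have hc : ∀ᶠ w in 𝓝 (v0, s0), fderiv ℝ f w (0, 1) ≠ 0 := by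
    have h1 : ContinuousAt (fun w => fderiv ℝ f w (0, 1)) (v0, s0) := by
      have h2 : ContinuousAt (fderiv ℝ f) (v0, s0) :=
        (hf.self_of_nhds.fderiv_right (m := 0) (by simpa using hn)).continuousAt
      exact h2.clm_apply continuousAt_const
    exact h1.eventually_ne ht
  have hder : ∀ w, ContDiffAt ℝ n f w → ∀ h : fderiv ℝ f w (0, 1) ≠ 0, HasFDerivAt Θ
      ((shear ((fderiv ℝ f w).comp (ContinuousLinearMap.inl ℝ V ℝ)) (fderiv ℝ f w (0, 1)) h :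
        (V × ℝ) ≃L[ℝ] (V × ℝ)) : (V × ℝ) →L[ℝ] (V × ℝ)) w := by
    intro w hw h
    have h1 : HasFDerivAt Θ ((ContinuousLinearMap.fst ℝ V ℝ).prod (fderiv ℝ f w)) w := by
      rw [hΘ]
      exact (hasFDerivAt_fst).prodMk (hw.differentiableAt hn0).hasFDerivAt
    have h2 : ((shear ((fderiv ℝ f w).comp (ContinuousLinearMap.inl ℝ V ℝ)) (fderiv ℝ f w (0, 1)) h :
        (V × ℝ) ≃L[ℝ] (V × ℝ)) : (V × ℝ) →L[ℝ] (V × ℝ)) =
        (ContinuousLinearMap.fst ℝ V ℝ).prod (fderiv ℝ f w) := by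
      refine ContinuousLinearMap.ext ?_
      rintro ⟨v, s⟩
      have e : ((v, s) : V × ℝ) = (v, 0) + s • (0, 1) := by simp
      rw [ContinuousLinearMap.prod_apply]
      change (v, (fderiv ℝ f w) (v, 0) + fderiv ℝ f w (0, 1) * s) = (v, fderiv ℝ f w (v, s))
      rw [e, map_add, map_smul, smul_eq_mul, mul_comm]
    rw [h2]
    exact h1
  have hΘc : ∀ w, ContDiffAt ℝ n f w → ContDiffAt ℝ n Θ w := by
    intro w hw
    rw [hΘ]
    exact contDiffAt_fst.prodMk hw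
  have hcd : ContDiffAt ℝ n Θ (v0, s0) := hΘc _ hf.self_of_nhds
  obtain ⟨e, he, hs, hte, hsy⟩ : ∃ e : OpenPartialHomeomorph (V × ℝ) (V × ℝ), (e : V × ℝ → V × ℝ) = Θ ∧
      (v0, s0) ∈ e.source ∧ Θ (v0, s0) ∈ e.target ∧ e.symm (Θ (v0, s0)) = (v0, s0) := by
    refine ⟨hcd.toOpenPartialHomeomorph Θ (hder _ hf.self_of_nhds ht) hn0, rfl,
      hcd.mem_toOpenPartialHomeomorph_source _ hn0,
      hcd.image_mem_toOpenPartialHomeomorph_target _ hn0, ?_⟩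
    exact hcd.localInverse_apply_image (hder _ hf.self_of_nhds ht) hn0
  have hΘ0 : Θ (v0, s0) = (v0, f (v0, s0)) := by rw [hΘ]
  rw [hΘ0] at hte hsy
  have hcont : Tendsto e.symm (𝓝 (v0, f (v0, s0))) (𝓝 (v0, s0)) := by
    have := e.symm.continuousAt (x := (v0, f (v0, s0))) hte
    unfold ContinuousAt at this
    rwa [hsy] at this
  have htar : ∀ᶠ w in 𝓝 (v0, f (v0, s0)), w ∈ e.target := e.open_target.mem_nhds hte
  have hsou : ∀ᶠ w in 𝓝 (v0, s0), w ∈ e.source := e.open_source.mem_nhds hs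
  have h1st : ∀ w ∈ e.target, (e.symm w).1 = w.1 ∧ f (e.symm w) = w.2 := by
    intro w hw
    have h1 := e.right_inv hw
    rw [he, hΘ] at h1
    have h2 := congrArg Prod.fst h1
    have h3 := congrArg Prod.snd h1
    exact ⟨h2, h3⟩
  refine ⟨fun w => (e.symm w).2, by simp only [hsy], ?_, ?_, ?_⟩
  · filter_upwards [htar, hcont.eventually hf, hcont.eventually hc] with w h1 h2 h3
    refine contDiffAt_snd.comp w ?_
    refine e.contDiffAt_symm h1 (f₀' := shear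
      ((fderiv ℝ f (e.symm w)).comp (ContinuousLinearMap.inl ℝ V ℝ)) _ h3) ?_ ?_
    · rw [he]
      exact hder _ h2 h3
    · rw [he]
      exact hΘc _ h2
  · filter_upwards [htar] with w hw
    obtain ⟨h1, h2⟩ := h1st w hw
    rw [← h1, Prod.mk.eta, h2]
  · filter_upwards [hsou] with w hw
    have h1 := e.left_inv hw
    rw [he, hΘ] at h1
    simp only at h1 ⊢
    rw [h1]

end Shear

section Hit
variable {E : Type*} [NormedAddCommGroup E] [NormedSpace ℝ E] [CompleteSpace E]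

/-- The hitting time of the level sets of `G`. -/
theorem hit {G : E → ℝ} {n : WithTop ℕ∞} (hn : 1 ≤ n) {x0 v0 : E} {s0 : ℝ}
    (hG : ∀ᶠ x in 𝓝 (x0 + s0 • v0), ContDiffAt ℝ n G x)
    (ht : fderiv ℝ G (x0 + s0 • v0) v0 ≠ 0) :
    ∃ Λ : (E × E) × ℝ → ℝ, Λ ((x0, v0), G (x0 + s0 • v0)) = s0 ∧
      (∀ᶠ w in 𝓝 ((x0, v0), G (x0 + s0 • v0)), ContDiffAt ℝ n Λ w) ∧
      (∀ᶠ w in 𝓝 ((x0, v0), G (x0 + s0 • v0)), G (w.1.1 + Λ w • w.1.2) = w.2) ∧
      (∀ᶠ w in 𝓝 ((x0, v0), s0), Λ (w.1, G (w.1.1 + w.2 • w.1.2)) = w.2) := by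
  obtain ⟨g, hg⟩ : ∃ g : (E × E) × ℝ → E, g = fun q => q.1.1 + q.2 • q.1.2 := ⟨_, rfl⟩
  have cg : ∀ (m : WithTop ℕ∞) w, ContDiffAt ℝ m g w := by
    intro m w
    rw [hg]
    have h : ContDiff ℝ m (fun q : (E × E) × ℝ => q.1.1 + q.2 • q.1.2) := by fun_prop
    exact h.contDiffAt
  have hg0 : g ((x0, v0), s0) = x0 + s0 • v0 := by rw [hg]
  have hn0 : n ≠ 0 := (zero_lt_one.trans_le hn).ne'
  have hf : ∀ᶠ w in 𝓝 ((x0, v0), s0), ContDiffAt ℝ n (fun q => G (g q)) w := by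
    have h1 : Tendsto g (𝓝 ((x0, v0), s0)) (𝓝 (x0 + s0 • v0)) := by
      rw [← hg0]
      exact (cg 0 _).continuousAt
    filter_upwards [h1.eventually hG] with w hw
    exact hw.comp w (cg n w)
  have hd : fderiv ℝ (fun q => G (g q)) ((x0, v0), s0) (0, 1) = fderiv ℝ G (x0 + s0 • v0) v0 := by
    have h1 : HasFDerivAt G (fderiv ℝ G (x0 + s0 • v0)) (g ((x0, v0), s0)) := by
      rw [hg0]
      exact (hG.self_of_nhds.differentiableAt hn0).hasFDerivAt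
    have h2 : HasFDerivAt g (fderiv ℝ g ((x0, v0), s0)) ((x0, v0), s0) :=
      ((cg 1 _).differentiableAt one_ne_zero).hasFDerivAt
    have h3 := h1.comp _ h2
    have h4 : fderiv ℝ g ((x0, v0), s0) (0, 1) = v0 := by
      have h5 : HasDerivAt (fun t : ℝ => (((x0, v0), s0 + t) : (E × E) × ℝ)) (0, 1) 0 :=
        (hasDerivAt_const (0 : ℝ) ((x0, v0) : E × E)).prodMk ((hasDerivAt_id (0 : ℝ)).const_add s0)
      have h6 : HasDerivAt (fun t : ℝ => g ((x0, v0), s0 + t)) (fderiv ℝ g ((x0, v0), s0) (0, 1)) 0 := by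
        have h2' : HasFDerivAt g (fderiv ℝ g ((x0, v0), s0)) ((x0, v0), s0 + 0) := by
          rw [add_zero]; exact h2
        exact h2'.comp_hasDerivAt (0 : ℝ) h5
      have h7 : HasDerivAt (fun t : ℝ => g ((x0, v0), s0 + t)) v0 0 := by
        rw [hg]
        have := (((hasDerivAt_id (0 : ℝ)).const_add s0).smul_const v0).const_add x0
        rw [one_smul] at this
        exact this
      exact h6.unique h7
    have h5 : (fun q => G (g q)) = G ∘ g := rfl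
    rw [h5, h3.fderiv, ContinuousLinearMap.comp_apply, h4]
  have ht' : fderiv ℝ (fun q => G (g q)) ((x0, v0), s0) (0, 1) ≠ 0 := by rw [hd]; exact ht
  obtain ⟨Λ, h1, h2, h3, h4⟩ := hit_gen hn hf ht'
  simp only [hg] at h1 h2 h3 h4
  exact ⟨Λ, h1, h2, h3, h4⟩

end Hit

end Pool.Agent.TH746.UM
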