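import Pool.Agent.TH746.UM.Curv
import Pool.Agent.TH746.UM.Hit
import Pool.Agent.H721R2.Quart.G4Chart

set_option autoImplicit false

open MeasureTheory Set Filter Topology
open scoped InnerProductSpace ContDiff
open Pool.Agent.H721R2.Quart Pool.Agent.H721R2.Ivrii

namespace Pool.Agent.TH746.UM

variable {E : Type*} [NormedAddCommGroup E] [InnerProductSpace ℝ E] [FiniteDimensional ℝ E]

/-- The hitting time, of class `C^∞`. -/
theorem hit_inf {F : E → ℝ} {x0 v0 : E} {t0 : ℝ}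
    (hF : ∀ᶠ x in 𝓝 (x0 + t0 • v0), ContDiffAt ℝ ∞ F x)
    (h0 : F (x0 + t0 • v0) = 0) (ht : fderiv ℝ F (x0 + t0 • v0) v0 ≠ 0) :
    ∃ T : E × E → ℝ, (∀ᶠ y in 𝓝 (x0, v0), ContDiffAt ℝ ∞ T y) ∧ T (x0, v0) = t0 ∧
      (∀ᶠ p in 𝓝 (x0, v0), F (p.1 + T p • p.2) = 0) ∧
      (∀ᶠ q in 𝓝 ((x0, v0), t0), F (q.1.1 + q.2 • q.1.2) = 0 → q.2 = T q.1) := by
  obtain ⟨Λ, h1, h2, h3, h4⟩ := hit (n := ∞) (by exact_mod_cast le_top) hF ht
  rw [h0] at h1 h2 h3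
  have hten : Tendsto (fun y : E × E => (y, (0 : ℝ))) (𝓝 (x0, v0)) (𝓝 ((x0, v0), 0)) :=
    (continuous_id.prodMk continuous_const).tendsto (x0, v0)
  refine ⟨fun y => Λ (y, 0), ?_, h1, ?_, ?_⟩
  · filter_upwards [hten.eventually h2] with y hy
    exact ContDiffAt.comp (g := Λ) (f := fun y : E × E => (y, (0 : ℝ))) y hy
      (contDiffAt_id.prodMk contDiffAt_const)
  · filter_upwards [hten.eventually h3] with y hy
    exact hy
  · filter_upwards [h4] with q hq hq0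
    rw [hq0] at hq
    exact hq.symm

/-- a local parametrisation of `F = 0` over the tangent space, of class `C^∞` -/
theorem chart_inf {F : E → ℝ} {q : E} (hFi : ∀ᶠ x in 𝓝 q, ContDiffAt ℝ ∞ F x) (h0 : F q = 0)
    (hg : gradient F q ≠ 0) :
    ∃ X : (ℝ ∙ gradient F q)ᗮ → E, (∀ᶠ z in 𝓝 0, ContDiffAt ℝ ∞ X z) ∧ X 0 = q ∧
      (∀ᶠ z in 𝓝 0, F (X z) = 0) ∧
      (∃ P : E → (ℝ ∙ gradient F q)ᗮ, Continuous P ∧ P 0 = 0 ∧
        ∀ᶠ y in 𝓝 q, F y = 0 → y = X (P (y - q))) ∧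
      (∀ᶠ z in 𝓝 0, ∀ Y, ⟪gradient F (X z), Y⟫_ℝ = 0 → ∃ ζ, fderiv ℝ X z ζ = Y) := by
  obtain ⟨g, hgd⟩ : ∃ g, g = gradient F q := ⟨_, rfl⟩
  rw [← hgd] at hg ⊢
  have hgg : ⟪g, g⟫_ℝ ≠ 0 := by
    rw [real_inner_self_eq_norm_sq]; exact pow_ne_zero 2 (norm_ne_zero_iff.2 hg)
  have hF : ContDiffAt ℝ 3 F q := hFi.self_of_nhds.of_le (by norm_cast)
  obtain ⟨T, hTi, hT0, hT1, hT2⟩ := hit_inf (F := F) (x0 := q) (v0 := g) (t0 := 0)
    (by rw [zero_smul, add_zero]; exact hFi) (by rw [zero_smul, add_zero]; exact h0)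
    (by rw [zero_smul, add_zero, G4_fderiv_eq, ← hgd]; exact hgg)
  have hT : ContDiffAt ℝ 3 T (q, g) := hTi.self_of_nhds.of_le (by norm_cast)
  have hc : ContDiffAt ℝ 3 (fun z : (ℝ ∙ g)ᗮ => (q + (z : E), g)) 0 := by
    have h1 : ContDiff ℝ 3 (fun z : (ℝ ∙ g)ᗮ => (q + (z : E), g)) := by
      have h2 : ContDiff ℝ 3 (fun z : (ℝ ∙ g)ᗮ => (z : E)) :=
        ((ℝ ∙ g)ᗮ).subtypeL.contDiff
      exact (contDiff_const.add h2).prodMk contDiff_const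
    exact h1.contDiffAt
  have hcc : Tendsto (fun z : (ℝ ∙ g)ᗮ => (q + (z : E), g)) (𝓝 0) (𝓝 (q, g)) := by
    have := hc.continuousAt.tendsto
    simpa using this
  have hTc : ContDiffAt ℝ 3 (fun z : (ℝ ∙ g)ᗮ => T (q + (z : E), g)) 0 := by
    refine ContDiffAt.comp (g := T) (f := fun z : (ℝ ∙ g)ᗮ => (q + (z : E), g)) 0 ?_ hc
    simpa using hT
  have hX : ContDiffAt ℝ 3 (fun z : (ℝ ∙ g)ᗮ => q + (z : E) + T (q + (z : E), g) • g) 0 := by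
    have h2 : ContDiffAt ℝ 3 (fun z : (ℝ ∙ g)ᗮ => (z : E)) 0 :=
      ((ℝ ∙ g)ᗮ).subtypeL.contDiff.contDiffAt
    exact (contDiffAt_const.add h2).add (hTc.smul contDiffAt_const)
  have hzero : ∀ᶠ z : (ℝ ∙ g)ᗮ in 𝓝 0, F (q + (z : E) + T (q + (z : E), g) • g) = 0 :=
    hcc.eventually hT1
  have hXi : ∀ᶠ z : (ℝ ∙ g)ᗮ in 𝓝 0, ContDiffAt ℝ ∞
      (fun z : (ℝ ∙ g)ᗮ => q + (z : E) + T (q + (z : E), g) • g) z := by
    filter_upwards [hcc.eventually hTi] with z hz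
    have h2 : ContDiff ℝ ∞ (fun z : (ℝ ∙ g)ᗮ => (z : E)) := ((ℝ ∙ g)ᗮ).subtypeL.contDiff
    have h3 : ContDiff ℝ ∞ (fun z : (ℝ ∙ g)ᗮ => (q + (z : E), g)) :=
      (contDiff_const.add h2).prodMk contDiff_const
    have h4 : ContDiffAt ℝ ∞ (fun z : (ℝ ∙ g)ᗮ => T (q + (z : E), g)) z :=
      ContDiffAt.comp (g := T) (f := fun z : (ℝ ∙ g)ᗮ => (q + (z : E), g)) z hz h3.contDiffAt
    exact (contDiffAt_const.add h2.contDiffAt).add (h4.smul contDiffAt_const)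
  refine ⟨fun z => q + (z : E) + T (q + (z : E), g) • g, hXi, ?_, hzero, ?_, ?_⟩
  · simp [hT0]
  · refine ⟨fun y => (ℝ ∙ g)ᗮ.orthogonalProjectionOnto y, ?_, ?_, ?_⟩
    · exact ((ℝ ∙ g)ᗮ.orthogonalProjectionOnto).continuous
    · simp
    · -- uniqueness
      have hdec : ∀ y : E, ((ℝ ∙ g)ᗮ.orthogonalProjectionOnto (y - q) : E) +
          (⟪g, y - q⟫_ℝ / ⟪g, g⟫_ℝ) • g = y - q := by
        intro y
        have h1 := Submodule.starProjection_add_starProjection_orthogonal (K := (ℝ ∙ g)) (y - q)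
        have h2 := Submodule.starProjection_singleton ℝ (v := g) (y - q)
        rw [h2] at h1
        have h3 : ((ℝ ∙ g)ᗮ.orthogonalProjectionOnto (y - q) : E) =
            (ℝ ∙ g)ᗮ.starProjection (y - q) := rfl
        rw [h3]
        have h4 : ((⟪g, y - q⟫_ℝ / ((‖g‖ : ℝ) ^ 2 : ℝ) : ℝ)) = ⟪g, y - q⟫_ℝ / ⟪g, g⟫_ℝ := by
          rw [real_inner_self_eq_norm_sq]
        rw [← h4, add_comm]
        exact h1
      have htend : Tendsto (fun y : E => ((q + ((ℝ ∙ g)ᗮ.orthogonalProjectionOnto (y - q) : E), g),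
          ⟪g, y - q⟫_ℝ / ⟪g, g⟫_ℝ)) (𝓝 q) (𝓝 ((q, g), 0)) := by
        have h1 : Continuous (fun y : E => ((q + ((ℝ ∙ g)ᗮ.orthogonalProjectionOnto (y - q) : E), g),
          ⟪g, y - q⟫_ℝ / ⟪g, g⟫_ℝ)) := by
          fun_prop
        have h2 := h1.tendsto q
        simpa using h2
      filter_upwards [htend.eventually hT2] with y hy hFy
      have h1 : q + ((ℝ ∙ g)ᗮ.orthogonalProjectionOnto (y - q) : E) +
          (⟪g, y - q⟫_ℝ / ⟪g, g⟫_ℝ) • g = y := by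
        rw [add_assoc, hdec]; abel
      have h2 := hy (by rw [h1]; exact hFy)
      rw [← h2, h1]
  · -- surjectivity
    have hXe : ∀ᶠ z : (ℝ ∙ g)ᗮ in 𝓝 0, ContDiffAt ℝ 3
        (fun z : (ℝ ∙ g)ᗮ => q + (z : E) + T (q + (z : E), g) • g) z :=
      hX.eventually (by norm_num)
    have hTe : ∀ᶠ z : (ℝ ∙ g)ᗮ in 𝓝 0, ContDiffAt ℝ 3
        (fun z : (ℝ ∙ g)ᗮ => T (q + (z : E), g)) z := hTc.eventually (by norm_num)
    have hXt : Tendsto (fun z : (ℝ ∙ g)ᗮ => q + (z : E) + T (q + (z : E), g) • g) (𝓝 0) (𝓝 q) := by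
      have := hX.continuousAt.tendsto
      simpa [hT0] using this
    have hFe : ∀ᶠ z : (ℝ ∙ g)ᗮ in 𝓝 0,
        ContDiffAt ℝ 3 F (q + (z : E) + T (q + (z : E), g) • g) :=
      hXt.eventually (hF.eventually (by norm_num))
    have hgrad : ∀ᶠ z : (ℝ ∙ g)ᗮ in 𝓝 0,
        ⟪gradient F (q + (z : E) + T (q + (z : E), g) • g), g⟫_ℝ ≠ 0 := by
      have h1 : ContinuousAt (fun y => ⟪gradient F y, g⟫_ℝ) q :=
        (G2_contDiff_grad hF).continuousAt.inner continuousAt_const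
      have h2 : Tendsto (fun y => ⟪gradient F y, g⟫_ℝ) (𝓝 q) (𝓝 ⟪g, g⟫_ℝ) := by
        have := h1.tendsto
        rwa [← hgd] at this
      exact (h2.comp hXt).eventually_ne hgg
    filter_upwards [hXe, hTe, hFe, hgrad, hzero.eventually_nhds] with z h1 h2 h3 h4 h5 Y hY
    obtain ⟨X, hXdef⟩ : ∃ X, X = (fun z : (ℝ ∙ g)ᗮ => q + (z : E) + T (q + (z : E), g) • g) :=
      ⟨_, rfl⟩
    rw [← hXdef] at h1 ⊢
    have h3' : DifferentiableAt ℝ F (X z) := by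
      rw [hXdef]; exact h3.differentiableAt (by norm_num)
    have h4' : ⟪gradient F (X z), g⟫_ℝ ≠ 0 := by rw [hXdef]; exact h4
    have hY' : ⟪gradient F (X z), Y⟫_ℝ = 0 := by rw [hXdef]; exact hY
    have htan : ∀ ζ, ⟪gradient F (X z), fderiv ℝ X z ζ⟫_ℝ = 0 := by
      intro ζ
      have h6 : fderiv ℝ (F ∘ X) z = 0 := by
        have : (F ∘ X) =ᶠ[𝓝 z] fun _ => (0 : ℝ) := by
          filter_upwards [h5] with y hy
          rw [hXdef]; exact hy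
        rw [this.fderiv_eq]; simp
      rw [fderiv_comp z h3' (h1.differentiableAt (by norm_num))] at h6
      have h7 := congrArg (fun L : (ℝ ∙ g)ᗮ →L[ℝ] ℝ => L ζ) h6
      simp only [ContinuousLinearMap.comp_apply] at h7
      rw [← G4_fderiv_eq]
      exact h7
    have hform : ∀ ζ, ∃ s : ℝ, fderiv ℝ X z ζ = (ζ : E) + s • g := by
      intro ζ
      refine ⟨fderiv ℝ (fun z : (ℝ ∙ g)ᗮ => T (q + (z : E), g)) z ζ, ?_⟩
      have h6 : HasFDerivAt (fun z : (ℝ ∙ g)ᗮ => q + (z : E) + T (q + (z : E), g) • g)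
          (((ℝ ∙ g)ᗮ).subtypeL + (fderiv ℝ (fun z : (ℝ ∙ g)ᗮ => T (q + (z : E), g)) z).smulRight g) z := by
        have h7 : HasFDerivAt (fun z : (ℝ ∙ g)ᗮ => q + (z : E)) (((ℝ ∙ g)ᗮ).subtypeL) z :=
          ((ℝ ∙ g)ᗮ).subtypeL.hasFDerivAt.const_add q
        have h8 := (h2.differentiableAt (by norm_num)).hasFDerivAt.smul_const g
        exact h7.add h8
      rw [← hXdef] at h6
      rw [h6.fderiv]
      rfl
    obtain ⟨s, hs⟩ := hform ((ℝ ∙ g)ᗮ.orthogonalProjectionOnto Y)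
    refine ⟨(ℝ ∙ g)ᗮ.orthogonalProjectionOnto Y, ?_⟩
    have h6 : ((ℝ ∙ g)ᗮ.orthogonalProjectionOnto Y : E) + (⟪g, Y⟫_ℝ / ⟪g, g⟫_ℝ) • g = Y := by
      have h1 := Submodule.starProjection_add_starProjection_orthogonal (K := (ℝ ∙ g)) Y
      have h2 := Submodule.starProjection_singleton ℝ (v := g) Y
      rw [h2] at h1
      have h3 : ((ℝ ∙ g)ᗮ.orthogonalProjectionOnto Y : E) =
          (ℝ ∙ g)ᗮ.starProjection Y := rfl
      rw [h3]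
      have h4 : ((⟪g, Y⟫_ℝ / ((‖g‖ : ℝ) ^ 2 : ℝ) : ℝ)) = ⟪g, Y⟫_ℝ / ⟪g, g⟫_ℝ := by
        rw [real_inner_self_eq_norm_sq]
      rw [← h4, add_comm]
      exact h1
    have h7 := htan ((ℝ ∙ g)ᗮ.orthogonalProjectionOnto Y)
    have h8 : fderiv ℝ X z ((ℝ ∙ g)ᗮ.orthogonalProjectionOnto Y) = Y +
        (s - ⟪g, Y⟫_ℝ / ⟪g, g⟫_ℝ) • g := by
      rw [hs]
      conv_rhs => rw [← h6]
      have : ⟪g, ((ℝ ∙ g)ᗮ.orthogonalProjectionOnto Y : E) + (⟪g, Y⟫_ℝ / ⟪g, g⟫_ℝ) • g⟫_ℝ = ⟪g, Y⟫_ℝ := by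
        rw [h6]
      rw [this]
      module
    rw [h8, inner_add_right, hY', inner_smul_right, zero_add] at h7
    rcases mul_eq_zero.1 h7 with h9 | h9
    · rw [h8, h9, zero_smul, add_zero]
    · exact absurd h9 h4'

end Pool.Agent.TH746.UM
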