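import Pool.Agent.TH746.UM.Shadow
import Pool.Agent.TH746.Loc

set_option autoImplicit false

open Set Filter Topology Asymptotics
open scoped InnerProductSpace ContDiff
open Pool.Agent.H721R2.Quart Pool.Agent.H721R2.Ivrii

namespace Pool.Agent.TH746.UM

section Def
variable {E : Type*} [NormedAddCommGroup E] [InnerProductSpace ℝ E] [CompleteSpace E]

/-- The boundary of the table `Ω` is a hypersurface of class `C^∞` near `q`. -/
def SmoothAt (Ω : Set E) (q : E) : Prop :=
  ∃ F : E → ℝ, LocalDef Ω q F ∧ ∀ᶠ x in 𝓝 q, ContDiffAt ℝ ∞ F x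

/-- The boundary of `Ω` is regular at `x` and all its normal curvatures at `x` are equal to `κ`:
for some local defining function `F` of `Ω` at `x` the second derivative satisfies
`F''(x)(w, w) = κ |∇F(x)| |w|²` for all tangent vectors `w`. -/
def Curv (Ω : Set E) (x : E) (κ : ℝ) : Prop :=
  ∃ F : E → ℝ, LocalDef Ω x F ∧ ∀ w : E, ⟪gradient F x, w⟫_ℝ = 0 →
    fderiv ℝ (fderiv ℝ F) x w w = κ * ‖gradient F x‖ * ‖w‖ ^ 2

/-- An umbilic point of the boundary: all normal curvatures are equal (planar points included). -/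
def Umbilic (Ω : Set E) (q : E) : Prop := ∃ κ : ℝ, Curv Ω q κ

/-- A vertex of the boundary (of a planar table): the curvature `κ x` of the boundary at its points
`x` near `q` satisfies `κ x - κ q = o(|x - q|)`, i.e. the derivative of the curvature along the
boundary vanishes at `q`. -/
def Vertex (Ω : Set E) (q : E) : Prop :=
  ∃ κ : E → ℝ, (∀ᶠ x in 𝓝[frontier Ω] q, Curv Ω x (κ x)) ∧
    (fun x => κ x - κ q) =o[𝓝[frontier Ω] q] fun x => x - q

end Def

variable {E : Type*} [NormedAddCommGroup E] [InnerProductSpace ℝ E] [FiniteDimensional ℝ E]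

/-- Two defining functions have positively parallel gradients. -/
theorem grad_pos {Ω : Set E} {q : E} {F F' : E → ℝ} (h : LocalDef Ω q F)
    (h' : LocalDef Ω q F') : ∃ l : ℝ, 0 < l ∧ gradient F' q = l • gradient F q := by
  obtain ⟨l, hl, hll⟩ := grad_parallel h h'
  rcases lt_or_gt_of_ne hl with hl0 | hl0
  · exfalso
    have hg : 0 < ⟪gradient F q, gradient F q⟫_ℝ := by
      rw [real_inner_self_eq_norm_sq]
      exact pow_pos (norm_pos_iff.2 h.grad) 2
    -- the table is entered in the direction of the gradient of `F`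
    have h1 := enters h' (w := gradient F q) (by
      rw [hll, real_inner_smul_left]
      exact mul_neg_of_neg_of_pos hl0 hg)
    -- the opposite table
    have hn : gradient (fun x => -F x) q = -gradient F q := by
      apply ext_inner_right ℝ
      intro w
      rw [inner_neg_left, inner_gradient_left, inner_gradient_left, fderiv_fun_neg]
      rfl
    have h2 : LocalDef {x | 0 < F x} q (fun x => -F x) := by
      refine ⟨h.smooth.neg, by simp [h.zero], ?_, ?_⟩
      · rw [hn]; exact neg_ne_zero.2 h.grad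
      · refine Eventually.of_forall fun x => ?_
        simp
    have h3 := enters h2 (w := gradient F q) (by
      rw [hn, inner_neg_left]; linarith)
    have hc : Tendsto (fun t : ℝ => q + t • gradient F q) (𝓝[>] 0) (𝓝 q) := by
      have h1 : Continuous (fun t : ℝ => q + t • gradient F q) := by fun_prop
      have := h1.tendsto 0
      simp only [zero_smul, add_zero] at this
      exact this.mono_left nhdsWithin_le_nhds
    obtain ⟨t, h4, h5, h6⟩ := (h1.and (h3.and (hc.eventually h.mem))).exists
    have h7 := h6.1 h4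
    simp only [mem_ofPred_eq] at h5
    linarith
  · exact ⟨l, hl0, hll⟩

/-- The second derivatives of two defining functions on the tangent space. -/
theorem second_transfer {Ω : Set E} {q : E} {F F' : E → ℝ} (h : LocalDef Ω q F)
    (h' : LocalDef Ω q F') {l : ℝ} (hll : gradient F' q = l • gradient F q) (w : E)
    (hw : ⟪gradient F q, w⟫_ℝ = 0) :
    fderiv ℝ (fderiv ℝ F') q w w = l * fderiv ℝ (fderiv ℝ F) q w w := by
  obtain ⟨X, cX, X0, Xz, -, Xs⟩ := G4_chart h.smooth h.zero h.grad
  have hXc : Tendsto X (𝓝 0) (𝓝 q) := by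
    have := cX.continuousAt.tendsto
    rwa [X0] at this
  have hgc : ContinuousAt (gradient F) q := (G2_contDiff_grad h.smooth).continuousAt
  have e1 : ∀ᶠ z in 𝓝 0, F' (X z) = 0 := by
    filter_upwards [Xz, hXc.eventually (h.smooth.eventually (by norm_num)),
      hXc.eventually (hgc.eventually_ne h.grad), hXc.eventually (eventually_eventually_nhds.2 h.mem),
      hXc.eventually (h'.smooth.eventually (by norm_num)),
      hXc.eventually (eventually_eventually_nhds.2 h'.mem)] with z z1 z2 z3 z4 z5 z6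
    exact zero_of_mem z5.continuousAt z6 ⟨z2, z1, z3, z4⟩
  obtain ⟨ζ, hζ⟩ := Xs.self_of_nhds w (by rw [X0]; exact hw)
  have k1 := second_vanish cX (by rw [X0]; exact h.smooth) Xz ζ
  have k2 := second_vanish cX (by rw [X0]; exact h'.smooth) e1 ζ
  rw [hζ, X0] at k1 k2
  rw [G4_fderiv_eq] at k1
  rw [G4_fderiv_eq F', hll, real_inner_smul_left] at k2
  linear_combination k2 - l * k1

/-- At a point with equal normal curvatures the derivative of the normal is a multiple of the
identity. -/
theorem curv_key {Ω : Set E} {q : E} {F : E → ℝ} (h : LocalDef Ω q F) {κ : ℝ} (hc : Curv Ω q κ)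
    (X : E) (hX : ⟪gradient F q, X⟫_ℝ = 0) :
    fderiv ℝ (fun y => dir (gradient F y)) q X = κ • X := by
  obtain ⟨F', hF', hk⟩ := hc
  obtain ⟨l, hl, hll⟩ := grad_pos h hF'
  have hgn : 0 < ‖gradient F q‖ := norm_pos_iff.2 h.grad
  have hq : ∀ w, ⟪gradient F q, w⟫_ℝ = 0 →
      fderiv ℝ (fderiv ℝ F) q w w = κ * ‖gradient F q‖ * ‖w‖ ^ 2 := by
    intro w hw
    have h1 := second_transfer h hF' hll w hw
    have h2 := hk w (by rw [hll, real_inner_smul_left, hw, mul_zero])
    rw [h1, hll, norm_smul, Real.norm_eq_abs, abs_of_pos hl] at h2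
    have h3 : l * (fderiv ℝ (fderiv ℝ F) q w w - κ * ‖gradient F q‖ * ‖w‖ ^ 2) = 0 := by
      linear_combination h2
    exact sub_eq_zero.1 ((mul_eq_zero.1 h3).resolve_left hl.ne')
  have hsymm := h.smooth.isSymmSndFDerivAt (by simp; norm_num)
  have hq2 : ∀ a b, ⟪gradient F q, a⟫_ℝ = 0 → ⟪gradient F q, b⟫_ℝ = 0 →
      fderiv ℝ (fderiv ℝ F) q a b = κ * ‖gradient F q‖ * ⟪a, b⟫_ℝ := by
    intro a b ha hb
    have e1 := hq a ha
    have e2 := hq b hb
    have e3 := hq (a + b) (by rw [inner_add_right, ha, hb, add_zero])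
    simp only [map_add, _root_.add_apply, e1, e2] at e3
    rw [hsymm.eq b a, ← real_inner_self_eq_norm_sq (a + b), inner_add_left, inner_add_right,
      inner_add_right, real_inner_self_eq_norm_sq, real_inner_self_eq_norm_sq,
      real_inner_comm a b] at e3
    linear_combination (1 / 2 : ℝ) * e3
  obtain ⟨N, hN⟩ : ∃ N, N = dir (gradient F q) := ⟨_, rfl⟩
  have hNN : ⟪N, N⟫_ℝ = 1 := by rw [hN]; exact dir_unit h.grad
  have hNg : ∀ b, ⟪N, b⟫_ℝ = 0 → ⟪gradient F q, b⟫_ℝ = 0 := by
    intro b hb
    rw [hN] at hb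
    unfold dir at hb
    rw [real_inner_smul_left] at hb
    exact (mul_eq_zero.1 hb).resolve_left (inv_ne_zero hgn.ne')
  have hNX : ⟪N, X⟫_ℝ = 0 := by
    rw [hN]
    unfold dir
    rw [real_inner_smul_left, hX, mul_zero]
  -- the derivative is tangent
  have htan : ⟪fderiv ℝ (fun y => dir (gradient F y)) q X, N⟫_ℝ = 0 := by
    have hd : DifferentiableAt ℝ (fun y => dir (gradient F y)) q :=
      (G2_contDiff_nu h.smooth h.grad).differentiableAt (by norm_num)
    have h1 := (hd.hasFDerivAt.inner ℝ hd.hasFDerivAt)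
    have h2 : (fun y => ⟪dir (gradient F y), dir (gradient F y)⟫_ℝ) =ᶠ[𝓝 q] fun _ => (1 : ℝ) := by
      have hgc : ContinuousAt (gradient F) q := (G2_contDiff_grad h.smooth).continuousAt
      filter_upwards [hgc.eventually_ne h.grad] with y hy
      exact dir_unit hy
    have h3 := ((hasFDerivAt_const (1 : ℝ) q).congr_of_eventuallyEq h2).unique h1
    have h4 := congrArg (fun L : E →L[ℝ] ℝ => L X) h3
    simp only [_root_.zero_apply, ContinuousLinearMap.comp_apply,
      ContinuousLinearMap.prod_apply, fderivInnerCLM_apply] at h4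
    rw [← hN, real_inner_comm] at h4
    have h5 : ⟪fderiv ℝ (fun y => dir (gradient F y)) q X, N⟫_ℝ +
      ⟪fderiv ℝ (fun y => dir (gradient F y)) q X, N⟫_ℝ = 0 := h4.symm
    linarith
  apply ext_inner_right ℝ
  intro b
  have hb : b = (b - ⟪N, b⟫_ℝ • N) + ⟪N, b⟫_ℝ • N := by abel
  have hb' : ⟪N, b - ⟪N, b⟫_ℝ • N⟫_ℝ = 0 := by
    rw [inner_sub_right, inner_smul_right, hNN]; ring
  rw [hb, inner_add_right, inner_smul_right, htan, mul_zero, add_zero,
    G2_key h.smooth h.grad (by rw [← hN]; exact hb'), hq2 X _ hX (hNg _ hb'), inner_add_right,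
    inner_smul_right, real_inner_smul_left, real_inner_smul_left]
  have h6 : ⟪X, N⟫_ℝ = 0 := by rw [real_inner_comm]; exact hNX
  rw [h6]
  field_simp
  ring

end Pool.Agent.TH746.UM
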