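import Pool.Agent.W460.IV.Dyn2
import Pool.Agent.W567.IV.Core

set_option autoImplicit false

open Filter Topology

namespace Pool.Agent.TH746.UM

open Pool.Agent.W567.IV W973.IV Pool.Agent.W460.IV

variable {n : ℕ}

/-- A trajectory reflected in given spheres and hyperplanes gives, after unfolding, a chain. -/
theorem dyn3 (N : ℕ) (p u : ℕ → EuclideanSpace ℝ (Fin n)) (fl : ℕ → ℝ) (D : ℕ → Mir n)
    (hu1 : ∀ k < N, inner ℝ (u k) (u k) = 1)
    (hfl : ∀ k < N, p (k + 1) = p k + fl k • u k)
    (hS : ∀ k < N, ∀ S : Sph n, D (k + 1) = Sum.inl S → 0 < S.ρ ∧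
      ‖p (k + 1) - ce S‖ ^ 2 = S.ρ ∧
      u (k + 1) = u k - (2 * inner ℝ (p (k + 1) - ce S) (u k) / S.ρ) • (p (k + 1) - ce S))
    (hH : ∀ k < N, ∀ H : Flat n, D (k + 1) = Sum.inr H → H.ν ⬝ᵥ H.ν = 1 ∧
      inner ℝ (WithLp.toLp 2 H.ν) (p (k + 1)) = H.h ∧
      u (k + 1) = u k - (2 * inner ℝ (WithLp.toLp 2 H.ν) (u k)) •
        (WithLp.toLp 2 H.ν : EuclideanSpace ℝ (Fin n)))
    (t c : ℝ) (hc : 0 < c) :
    ∃ ch : Ch n ℂ, ch.map Prod.fst = (unf D N).1 ∧
      WVal ch (cl (p 0 + t • u 0) (c • u 0)) ∧
      endl ch (cl (p 0 + t • u 0) (c • u 0)) =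
        cl (Lm (unf D N).2.1 (p N - ((∑ i ∈ Finset.range N, fl i) - t) • u N) +
          WithLp.toLp 2 (unf D N).2.2) (Lm (unf D N).2.1 (c • u N)) := by
  set TT : ℕ → ℝ := fun k => ∑ i ∈ Finset.range k, fl i with hTT
  have hTTs : ∀ k, TT (k + 1) = TT k + fl k := fun k => Finset.sum_range_succ _ _
  have horth := unf_orth D N (fun k h1 h2 H hH' => by
    obtain ⟨k, rfl⟩ : ∃ k', k = k' + 1 := ⟨k - 1, by omega⟩
    exact (hH k h2 H hH').1)
  -- the chain
  let ch : ℕ → Ch n ℂ := fun k => Nat.rec [] (fun k ih =>
    match D (k + 1) with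
    | Sum.inl S => ((⟨(unf D k).2.1.mulVec S.O + (unf D k).2.2, S.ρ⟩ : Sph n),
        ((c * inner ℝ (p (k + 1) - ce S) (u k) : ℝ) : ℂ)) :: ih
    | Sum.inr _ => ih) k
  have hch0 : ch 0 = [] := rfl
  have hchS : ∀ k S, D (k + 1) = Sum.inl S → ch (k + 1) =
      ((⟨(unf D k).2.1.mulVec S.O + (unf D k).2.2, S.ρ⟩ : Sph n),
        ((c * inner ℝ (p (k + 1) - ce S) (u k) : ℝ) : ℂ)) :: ch k := by
    intro k S h
    simp only [ch, h]
  have hchH : ∀ k H, D (k + 1) = Sum.inr H → ch (k + 1) = ch k := by
    intro k S h
    simp only [ch, h]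
  set l0 : Line n ℂ := cl (p 0 + t • u 0) (c • u 0) with hl0
  have hmap : ∀ k, (ch k).map Prod.fst = (unf D k).1 := by
    intro k
    induction k with
    | zero => rfl
    | succ k ih =>
      rcases h : D (k + 1) with S | H
      · rw [hchS k S h, List.map_cons, ih]
        simp only [unf, h]
      · rw [hchH k H h, ih]
        simp only [unf, h]
  have hmain : ∀ k, k ≤ N → endl (ch k) l0 =
      cl (Lm (unf D k).2.1 (p k - (TT k - t) • u k) + WithLp.toLp 2 (unf D k).2.2)
        (Lm (unf D k).2.1 (c • u k)) ∧ WVal (ch k) l0 := by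
    intro k
    induction k with
    | zero =>
      intro _
      refine ⟨?_, trivial⟩
      rw [hch0]
      change l0 = _
      have e0 : TT 0 = 0 := Finset.sum_range_zero _
      have e1 : (unf D 0).2.1 = 1 := rfl
      have e2 : (unf D 0).2.2 = 0 := rfl
      rw [hl0, e0, e1, e2, Lm_one, Lm_one, zero_sub, neg_smul, sub_neg_eq_add,
        WithLp.toLp_zero, add_zero]
    | succ k ih =>
      intro hk1
      obtain ⟨ih1, ih2⟩ := ih (by omega)
      have hkN : k < N := hk1
      have hA := horth k (by omega)
      set A := (unf D k).2.1 with hAdef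
      set b := (unf D k).2.2 with hbdef
      rcases hD : D (k + 1) with S | H
      · obtain ⟨hρ0, hn1, hu2⟩ := hS k hkN S hD
        have eA : (unf D (k + 1)).2.1 = A := by simp only [unf, hD, hAdef]
        have eb : (unf D (k + 1)).2.2 = b := by simp only [unf, hD, hbdef]
        rw [eA, eb]
        set O := ce S with hO
        set ρ := S.ρ with hρ'
        set y := p (k + 1) - O with hy
        set δ := inner ℝ y (u k) with hδ
        have hyy : inner ℝ y y = ρ := by rw [real_inner_self_eq_norm_sq, hn1]
        have huu := hu1 k hkN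
        set θ := TT (k + 1) - t with hθ
        set S' : Sph n := ⟨A.mulVec S.O + b, ρ⟩ with hS'
        have hce : ce S' = Lm A O + WithLp.toLp 2 b := by
          ext i
          simp [ce, hS', Lm, hO]
        have ex : p k - (TT k - t) • u k - O = y - θ • u k := by
          rw [hy, hθ, hTTs, (hfl k hkN)]
          simp only [sub_smul, add_smul]
          abel
        set x := Lm A (p k - (TT k - t) • u k) + WithLp.toLp 2 b with hx
        set v := Lm A (c • u k) with hv
        have ex' : x - ce S' = Lm A (p k - (TT k - t) • u k - O) := by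
          rw [hce, hx, map_sub (Lm A) _ O]
          abel
        have ixu : inner ℝ (x - ce S') v = c * δ - c * θ := by
          rw [ex', hv, Lm_inner A hA, ex, inner_sub_left, real_inner_smul_right,
            real_inner_smul_left, real_inner_smul_right, huu]
          ring
        have iuu : inner ℝ v v = c ^ 2 := by
          rw [hv, Lm_inner A hA, real_inner_smul_left, real_inner_smul_right, huu]
          ring
        have ixx : inner ℝ (x - ce S') (x - ce S') = ρ - 2 * θ * δ + θ ^ 2 := by
          rw [ex', Lm_inner A hA, ex, inner_sub_smul, hyy, huu]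
          ring
        have hτ : θ / c = (c * δ - inner ℝ (x - ce S') v) / inner ℝ v v := by
          rw [ixu, iuu]
          field_simp
          ring
        have hyv : Lm A y = (x - ce S') + (θ / c) • v := by
          rw [ex', hv, ex, ← map_smul, ← map_add, smul_smul, div_mul_cancel₀ _ hc.ne']
          congr 1
          abel
        rw [hchS k S hD]
        refine ⟨?_, ih2, ?_⟩
        · change RR S' ((c * δ : ℝ) : ℂ) (endl (ch k) l0) = _
          rw [ih1, RR_cl S' (c * δ) _ _ (Lm A y) (θ / c) hτ hyv]
          have e3 : S'.ρ = ρ := rfl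
          rw [e3]
          congr 1
          · rw [hx, add_right_comm, ← map_smul, ← map_add]
            congr 2
            rw [hu2]
            have e1 : p k - (TT k - t) • u k = p (k + 1) - θ • u k := by
              have := ex
              rw [hy] at this
              have h2 : p k - (TT k - t) • u k - O + O = p (k + 1) - O - θ • u k + O := by
                rw [this]
              rw [sub_add_cancel] at h2
              rw [h2]
              abel
            have e2 : θ / c * (2 * (c * δ) / ρ) = θ * (2 * δ / ρ) := by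
              field_simp
            rw [e1, smul_sub θ (u k) _, smul_smul θ _ y, e2]
            abel
          · rw [hv, ← map_smul, ← map_sub]
            congr 1
            rw [hu2, smul_sub c (u k) _, smul_smul c _ y]
            congr 2
            ring
        · change ((c * δ : ℝ) : ℂ) ^ 2 = DD S' (endl (ch k) l0)
          rw [ih1, DD_cl, ixu, iuu, ixx]
          have e3 : S'.ρ = ρ := rfl
          rw [e3]
          norm_cast
          ring
      · obtain ⟨hν, hph, hu2⟩ := hH k hkN H hD
        have eA : (unf D (k + 1)).2.1 = A * Hou H.ν := by simp only [unf, hD, hAdef]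
        have eb : (unf D (k + 1)).2.2 = A.mulVec ((2 * H.h) • H.ν) + b := by
          simp only [unf, hD, hAdef, hbdef]
        rw [eA, eb, hchH k H hD]
        refine ⟨?_, ih2⟩
        rw [ih1, Lm_mul, Lm_mul]
        set ν : EuclideanSpace ℝ (Fin n) := WithLp.toLp 2 H.ν with hνdef
        have hνν : inner ℝ ν ν = 1 := by
          rw [inner_dot]
          exact hν
        have eu : Lm (Hou H.ν) (u (k + 1)) = u k := by
          rw [Lm_Hou, ← hνdef, hu2, inner_sub_right, real_inner_smul_right, hνν]
          have : 2 * (inner ℝ ν (u k) - 2 * inner ℝ ν (u k) * 1) = -(2 * inner ℝ ν (u k)) := by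
            ring
          rw [this, neg_smul]
          abel
        have ep : Lm (Hou H.ν) (p (k + 1)) = p (k + 1) - (2 * H.h) • ν := by
          rw [Lm_Hou, ← hνdef, hph]
        have eb' : (WithLp.toLp 2 (A.mulVec ((2 * H.h) • H.ν) + b) : EuclideanSpace ℝ (Fin n)) =
            Lm A ((2 * H.h) • ν) + WithLp.toLp 2 b := by
          ext i
          simp [Lm, hνdef, Matrix.mulVec_smul]
        congr 1
        · rw [eb', ← add_assoc, ← map_add]
          congr 2
          rw [map_sub, map_smul, ep, eu, hTTs, (hfl k hkN)]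
          simp only [sub_smul, add_smul]
          abel
        · rw [map_smul (Lm (Hou H.ν)), eu]
  exact ⟨ch N, hmap N, (hmain N le_rfl).2, (hmain N le_rfl).1⟩

end Pool.Agent.TH746.UM
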