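import Pool.Agent.TH746.UM.Jet
import Pool.Agent.TH746.UM.NoOpen
import Pool.Agent.TH746.UM.Red

set_option autoImplicit false

open MeasureTheory Set Filter Topology Asymptotics Metric
open scoped ContDiff InnerProductSpace

namespace Pool.Agent.TH746.UM

section A
variable {Z W : Type*} [NormedAddCommGroup Z] [NormedSpace ℝ Z] [NormedAddCommGroup W]
  [NormedSpace ℝ W]

theorem isBigO_succ {f : Z → W} {z0 : Z} {M : ℕ} (hd : ∀ᶠ z in 𝓝 z0, DifferentiableAt ℝ f z)
    (h : (fun z => fderiv ℝ f z) =O[𝓝 z0] fun z => ‖z - z0‖ ^ M) :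
    (fun z => f z - f z0) =O[𝓝 z0] fun z => ‖z - z0‖ ^ (M + 1) := by
  obtain ⟨c, hc0, hc⟩ := h.exists_nonneg
  obtain ⟨ε, hε, hb⟩ := Metric.eventually_nhds_iff_ball.1 (hc.bound.and hd)
  refine IsBigO.of_bound c ?_
  filter_upwards [Metric.ball_mem_nhds z0 hε] with z hz
  have hsub : closedBall z0 ‖z - z0‖ ⊆ ball z0 ε := by
    intro y hy
    rw [mem_closedBall, dist_eq_norm] at hy
    rw [mem_ball, dist_eq_norm] at hz ⊢
    exact lt_of_le_of_lt hy hz
  have h1 := Convex.norm_image_sub_le_of_norm_fderiv_le (𝕜 := ℝ) (f := f)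
    (s := closedBall z0 ‖z - z0‖) (x := z0) (y := z) (C := c * ‖z - z0‖ ^ M)
    (fun y hy => (hb y (hsub hy)).2) (fun y hy => by
      refine (hb y (hsub hy)).1.trans ?_
      rw [norm_pow, norm_norm]
      rw [mem_closedBall, dist_eq_norm] at hy
      exact mul_le_mul_of_nonneg_left (pow_le_pow_left₀ (norm_nonneg _) hy M) hc0)
    (convex_closedBall _ _) (mem_closedBall_self (norm_nonneg _))
    (by rw [mem_closedBall, dist_eq_norm])
  rw [norm_pow, norm_norm, pow_succ, ← mul_assoc]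
  exact h1

theorem flat_of_iter {f : Z → W} {z0 : Z} (hf : ContDiffAt ℝ ∞ f z0)
    (h : ∀ k : ℕ, iteratedFDeriv ℝ k f z0 = 0) (M : ℕ) :
    f =O[𝓝 z0] fun z => ‖z - z0‖ ^ M := by
  have hev : ∀ k : ℕ, ∀ᶠ z in 𝓝 z0, DifferentiableAt ℝ (iteratedFDeriv ℝ k f) z := by
    intro k
    have h1 : ContDiffAt ℝ ((k + 1 : ℕ) : WithTop ℕ∞) f z0 := hf.of_le (by norm_cast; exact le_top)
    filter_upwards [h1.eventually (by simp)] with z hz
    exact hz.differentiableAt_iteratedFDeriv (by exact_mod_cast Nat.lt_succ_self k)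
  have key : ∀ M : ℕ, ∀ k : ℕ, (fun z => iteratedFDeriv ℝ k f z) =O[𝓝 z0]
      fun z => ‖z - z0‖ ^ M := by
    intro M
    induction M with
    | zero =>
      intro k
      simp only [pow_zero]
      exact (hev k).self_of_nhds.continuousAt.tendsto.isBigO_one ℝ
    | succ M ih =>
      intro k
      have h1 : (fun z => fderiv ℝ (iteratedFDeriv ℝ k f) z) =O[𝓝 z0] fun z => ‖z - z0‖ ^ M := by
        refine IsBigO.trans (IsBigO.of_bound 1 (Eventually.of_forall fun z => ?_)) (ih (k + 1))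
        rw [one_mul, norm_fderiv_iteratedFDeriv]
      have h2 := isBigO_succ (hev k) h1
      refine h2.congr_left fun z => ?_
      rw [h k, sub_zero]
  refine IsBigO.trans (IsBigO.of_bound 1 (Eventually.of_forall fun z => ?_)) (key M 0)
  rw [one_mul, norm_iteratedFDeriv_zero]

end A

section B
variable {Z : Type*} [NormedAddCommGroup Z] [NormedSpace ℝ Z] [FiniteDimensional ℝ Z]
  [MeasurableSpace Z] [BorelSpace Z]

/-- At almost every point of a set all smooth functions which vanish on the set are flat. -/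
theorem exists_flat (μ : Measure Z) [μ.IsAddHaarMeasure] (A : Set Z) :
    ∃ B : Set Z, μ B = 0 ∧ ∀ z0 ∈ A \ B, ∀ (W : Type) [NormedAddCommGroup W] [NormedSpace ℝ W]
      (f : Z → W), (∀ z ∈ A, ContDiffAt ℝ ∞ f z) → (∀ z ∈ A, f z = 0) →
      fderiv ℝ f z0 = 0 ∧ ∀ M : ℕ, f =O[𝓝 z0] fun z => ‖z - z0‖ ^ M := by
  choose Bf hBf hBf' using exists_appr μ
  obtain ⟨S, hS0, hS1⟩ : ∃ S : ℕ → Set Z, S 0 = A ∧ ∀ k, S (k + 1) = S k \ Bf (S k) :=
    ⟨fun k => Nat.rec A (fun _ s => s \ Bf s) k, rfl, fun k => rfl⟩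
  refine ⟨⋃ k, Bf (S k), measure_iUnion_null fun k => hBf _, ?_⟩
  rintro z0 ⟨hz0, hzB⟩ W _ _ f hf h0
  have hsub : ∀ k, S k ⊆ A := by
    intro k
    induction k with
    | zero => rw [hS0]
    | succ k ih => rw [hS1]; exact sdiff_subset.trans ih
  have hmem : ∀ k, z0 ∈ S k := by
    intro k
    induction k with
    | zero => rw [hS0]; exact hz0
    | succ k ih =>
      rw [hS1]
      exact ⟨ih, fun h => hzB (mem_iUnion.2 ⟨k, h⟩)⟩
  have key : ∀ k : ℕ, ∀ z ∈ S k, iteratedFDeriv ℝ k f z = 0 := by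
    intro k
    induction k with
    | zero =>
      intro z hz
      rw [← norm_eq_zero, norm_iteratedFDeriv_zero, h0 z (hsub 0 hz), norm_zero]
    | succ k ih =>
      intro z hz
      have hzk : z ∈ S k \ Bf (S k) := by rw [hS1] at hz; exact hz
      have hd : DifferentiableAt ℝ (iteratedFDeriv ℝ k f) z :=
        (hf z (hsub k hzk.1)).differentiableAt_iteratedFDeriv (by
          exact_mod_cast WithTop.coe_lt_top k)
      have hfd : fderiv ℝ (iteratedFDeriv ℝ k f) z = 0 := by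
        refine ContinuousLinearMap.ext fun ζ => ?_
        obtain ⟨r, y, hA, hy⟩ := hBf' (S k) z hzk ζ
        have h1 := hA.map hd
        have h2 : Tendsto (fun j => (r j)⁻¹ • (iteratedFDeriv ℝ k f (y j) -
            iteratedFDeriv ℝ k f z)) atTop (𝓝 0) := by
          refine tendsto_const_nhds.congr fun j => ?_
          rw [ih (y j) (hy j), ih z hzk.1, sub_zero, smul_zero]
        exact tendsto_nhds_unique h1 h2
      have h3 := norm_fderiv_iteratedFDeriv (𝕜 := ℝ) (f := f) (x := z) (n := k)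
      rw [hfd] at h3
      rw [← norm_eq_zero, ← h3]
      exact ContinuousLinearMap.opNorm_zero
  refine ⟨?_, flat_of_iter (hf z0 hz0) fun k => key k z0 (hmem k)⟩
  rw [← norm_eq_zero, ← norm_iteratedFDeriv_one, key 1 z0 (hmem 1), norm_zero]

end B

end Pool.Agent.TH746.UM
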