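import Pool.Agent.TH746.UM.Hit
import Pool.Agent.H721R2.Quart.Def
import Pool.Agent.H721R2.Quart.G2
import Pool.Agent.H721R2.Quart.G3

set_option autoImplicit false

open Set Filter Topology Asymptotics
open scoped InnerProductSpace ContDiff
open Pool.Agent.H721R2.Quart

namespace Pool.Agent.TH746.UM

section A
variable {E : Type*} [NormedAddCommGroup E] [InnerProductSpace ℝ E]

theorem cd_dir {n : WithTop ℕ∞} {v : E} (hv : v ≠ 0) : ContDiffAt ℝ n (dir : E → E) v := by
  have h1 : ContDiffAt ℝ n (fun v : E => ‖v‖) v := contDiffAt_norm ℝ hv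
  exact (h1.inv (norm_ne_zero_iff.2 hv)).smul contDiffAt_id

theorem cd_rf {Z : Type*} [NormedAddCommGroup Z] [NormedSpace ℝ Z] {m : WithTop ℕ∞} {n v : Z → E}
    {z : Z} (hn : ContDiffAt ℝ m n z) (hv : ContDiffAt ℝ m v z) :
    ContDiffAt ℝ m (fun z => rf (n z) (v z)) z := by
  unfold rf
  exact hv.sub ((contDiffAt_const.mul (hn.inner ℝ hv)).smul hn)

variable [FiniteDimensional ℝ E]

theorem cd_grad {F : E → ℝ} {m n : WithTop ℕ∞} {x : E} (hF : ContDiffAt ℝ n F x)
    (hmn : m + 1 ≤ n) : ContDiffAt ℝ m (gradient F) x := by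
  rw [G2_grad_eq]
  exact ((InnerProductSpace.toDual ℝ E).symm.toContinuousLinearEquiv.contDiff.contDiffAt).comp x
    (hF.fderiv_right hmn)

theorem cd_normal {F : E → ℝ} {m n : WithTop ℕ∞} {x : E} (hF : ContDiffAt ℝ n F x)
    (hmn : m + 1 ≤ n) (hg : gradient F x ≠ 0) : ContDiffAt ℝ m (fun x => dir (gradient F x)) x :=
  (cd_dir hg).comp x (cd_grad hF hmn)

end A

section B

/-- Smooth maps preserve `O(ε)`-closeness. -/
theorem bigO_comp {V W ι : Type*} [NormedAddCommGroup V] [NormedSpace ℝ V]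
    [NormedAddCommGroup W] [NormedSpace ℝ W] {l : Filter ι} {ε : ι → ℝ} {Φ : V → W} {a : V}
    (hΦ : ContDiffAt ℝ 1 Φ a) {f g : ι → V} (hf : Tendsto f l (𝓝 a)) (hg : Tendsto g l (𝓝 a))
    (h : (fun i => f i - g i) =O[l] ε) : (fun i => Φ (f i) - Φ (g i)) =O[l] ε := by
  obtain ⟨K, t, ht, hK⟩ := hΦ.exists_lipschitzOnWith
  refine IsBigO.trans (IsBigO.of_bound K ?_) h
  filter_upwards [hf.eventually ht, hg.eventually ht] with i h1 h2
  have := hK.dist_le_mul _ h1 _ h2
  rwa [dist_eq_norm, dist_eq_norm] at this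

end B

section C
variable {E : Type*} [NormedAddCommGroup E] [InnerProductSpace ℝ E] [FiniteDimensional ℝ E]

/-- One reflection in an analytic mirror, and the shadowing of approximate reflections. -/
theorem step_shadow {G : E → ℝ} {x0 v0 : E} {s0 : ℝ} (hG : ContDiffAt ℝ ω G (x0 + s0 • v0))
    (h0 : G (x0 + s0 • v0) = 0) (ht : ⟪gradient G (x0 + s0 • v0), v0⟫_ℝ ≠ 0) :
    ∃ (T : E × E → ℝ) (R : E × E → E × E), ContDiffAt ℝ ω T (x0, v0) ∧ T (x0, v0) = s0 ∧
      ContDiffAt ℝ ω R (x0, v0) ∧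
      R = (fun y => (y.1 + T y • y.2, rf (dir (gradient G (y.1 + T y • y.2))) y.2)) ∧
      (∀ᶠ y in 𝓝 (x0, v0), G (y.1 + T y • y.2) = 0) ∧
      (∀ (ε : ℕ → ℝ) (x e x' e' : ℕ → E) (L : ℕ → ℝ) (y : ℕ → E × E),
        Tendsto x atTop (𝓝 x0) → Tendsto e atTop (𝓝 v0) → Tendsto L atTop (𝓝 s0) →
        Tendsto y atTop (𝓝 (x0, v0)) → (fun i => (x i, e i) - y i) =O[atTop] ε →
        (∀ i, x' i = x i + L i • e i) → (fun i => G (x' i)) =O[atTop] ε →
        (fun i => e' i - rf (dir (gradient G (x' i))) (e i)) =O[atTop] ε →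
        (fun i => (x' i, e' i) - R (y i)) =O[atTop] ε) := by
  have hGe : ∀ᶠ x in 𝓝 (x0 + s0 • v0), ContDiffAt ℝ ω G x := hG.eventually (by simp)
  have hgr : ∀ w, fderiv ℝ G (x0 + s0 • v0) w = ⟪gradient G (x0 + s0 • v0), w⟫_ℝ := by
    intro w
    rw [G2_grad_eq, InnerProductSpace.toDual_symm_apply]
  obtain ⟨Λ, h1, h2, h3, h4⟩ := hit (n := ω) (by simp) hGe (by rw [hgr]; exact ht)
  rw [h0] at h1 h2 h3
  have hg0 : gradient G (x0 + s0 • v0) ≠ 0 := by
    intro h; rw [h, inner_zero_left] at ht; exact ht rfl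
  obtain ⟨T, hT⟩ : ∃ T : E × E → ℝ, T = fun y => Λ (y, 0) := ⟨_, rfl⟩
  have hTc : ContDiffAt ℝ ω T (x0, v0) := by
    rw [hT]
    exact h2.self_of_nhds.comp (x0, v0) (contDiffAt_id.prodMk contDiffAt_const)
  have hT0 : T (x0, v0) = s0 := by rw [hT]; exact h1
  have hxc : ContDiffAt ℝ ω (fun y : E × E => y.1 + T y • y.2) (x0, v0) :=
    contDiffAt_fst.add (hTc.smul contDiffAt_snd)
  have hx0 : (x0, v0).1 + T (x0, v0) • (x0, v0).2 = x0 + s0 • v0 := by rw [hT0]
  have hNc : ContDiffAt ℝ ω (fun x => dir (gradient G x)) (x0 + s0 • v0) :=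
    cd_normal hG le_rfl hg0
  have hnc : ContDiffAt ℝ ω (fun y : E × E => dir (gradient G (y.1 + T y • y.2))) (x0, v0) := by
    refine ContDiffAt.comp (g := fun x => dir (gradient G x))
      (f := fun y : E × E => y.1 + T y • y.2) (x0, v0) ?_ hxc
    simp only [hT0]
    exact hNc
  have hRc : ContDiffAt ℝ ω (fun y : E × E => (y.1 + T y • y.2,
      rf (dir (gradient G (y.1 + T y • y.2))) y.2)) (x0, v0) :=
    hxc.prodMk (cd_rf hnc contDiffAt_snd)
  refine ⟨T, _, hTc, hT0, hRc, rfl, ?_, ?_⟩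
  · have hten : Tendsto (fun y : E × E => (y, (0 : ℝ))) (𝓝 (x0, v0)) (𝓝 ((x0, v0), 0)) :=
      (continuous_id.prodMk continuous_const).tendsto (x0, v0)
    filter_upwards [hten.eventually h3] with y hy
    rw [hT]
    exact hy
  · intro ε x e x' e' L y hx he hL hy hxy hx' hGx he'
    have hxL : Tendsto x' atTop (𝓝 (x0 + s0 • v0)) := by
      have : x' = fun i => x i + L i • e i := funext hx'
      rw [this]
      exact hx.add (hL.smul he)
    have hGt : Tendsto (fun i => G (x' i)) atTop (𝓝 0) := by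
      rw [← h0]
      exact hG.continuousAt.tendsto.comp hxL
    -- the times
    have hTL : (fun i => L i - T (y i)) =O[atTop] ε := by
      have e1 : (fun i => L i - T (y i)) =ᶠ[atTop]
          fun i => Λ ((x i, e i), G (x' i)) - Λ (y i, 0) := by
        have h5 : Tendsto (fun i => ((x i, e i), L i)) atTop (𝓝 ((x0, v0), s0)) :=
          (hx.prodMk_nhds he).prodMk_nhds hL
        filter_upwards [h5.eventually h4] with i hi
        rw [hx' i, hi, hT]
      refine e1.trans_isBigO ?_
      have hΛ1 : ContDiffAt ℝ 1 Λ ((x0, v0), 0) := h2.self_of_nhds.of_le (by simp)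
      refine bigO_comp hΛ1 ((hx.prodMk_nhds he).prodMk_nhds hGt)
        (hy.prodMk_nhds tendsto_const_nhds) ?_
      have h6 : (fun i => ((x i, e i), G (x' i)) - (y i, (0 : ℝ))) =
          fun i => ((x i, e i) - y i, G (x' i)) := by
        funext i
        simp
      rw [h6]
      exact hxy.prod_left hGx
    have hy1 : (fun i => x i - (y i).1) =O[atTop] ε := by
      refine IsBigO.trans ?_ hxy
      exact isBigO_fst_prod (l := atTop) (f' := fun i => x i - (y i).1)
        (g' := fun i => e i - (y i).2)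
    have hy2 : (fun i => e i - (y i).2) =O[atTop] ε := by
      refine IsBigO.trans ?_ hxy
      exact isBigO_snd_prod (l := atTop) (f' := fun i => x i - (y i).1)
        (g' := fun i => e i - (y i).2)
    have hTy : Tendsto (fun i => T (y i)) atTop (𝓝 s0) := by
      have := hTc.continuousAt.tendsto.comp hy
      rwa [hT0] at this
    have hxx : (fun i => x' i - ((y i).1 + T (y i) • (y i).2)) =O[atTop] ε := by
      have e2 : (fun i => x' i - ((y i).1 + T (y i) • (y i).2)) =
          fun i => (x i - (y i).1) + ((L i - T (y i)) • e i + T (y i) • (e i - (y i).2)) := by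
        funext i
        rw [hx' i]
        module
      rw [e2]
      refine hy1.add ((IsBigO.trans (hTL.smul (he.isBigO_one ℝ)) ?_).add
        (IsBigO.trans ((hTy.isBigO_one ℝ).smul hy2) ?_))
      · simp only [smul_eq_mul, mul_one]; exact isBigO_refl _ _
      · simp only [smul_eq_mul, one_mul]; exact isBigO_refl _ _
    have hyx : Tendsto (fun i => (y i).1 + T (y i) • (y i).2) atTop (𝓝 (x0 + s0 • v0)) := by
      have h7 := hxc.continuousAt.tendsto.comp hy
      simp only [hT0] at h7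
      exact h7
    have hnn : (fun i => dir (gradient G (x' i)) -
        dir (gradient G ((y i).1 + T (y i) • (y i).2))) =O[atTop] ε :=
      bigO_comp (Φ := fun x => dir (gradient G x)) (hNc.of_le (by simp)) hxL hyx hxx
    have hrf : (fun i => rf (dir (gradient G (x' i))) (e i) -
        rf (dir (gradient G ((y i).1 + T (y i) • (y i).2))) (y i).2) =O[atTop] ε := by
      have hΦ : ContDiffAt ℝ 1 (fun w : E × E => rf w.1 w.2)
          (dir (gradient G (x0 + s0 • v0)), v0) := cd_rf contDiffAt_fst contDiffAt_snd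
      have h8 : Tendsto (fun i => dir (gradient G (x' i))) atTop
          (𝓝 (dir (gradient G (x0 + s0 • v0)))) := hNc.continuousAt.tendsto.comp hxL
      have h9 : Tendsto (fun i => dir (gradient G ((y i).1 + T (y i) • (y i).2))) atTop
          (𝓝 (dir (gradient G (x0 + s0 • v0)))) := hNc.continuousAt.tendsto.comp hyx
      have hy2t : Tendsto (fun i => (y i).2) atTop (𝓝 v0) :=
        (continuous_snd.tendsto (x0, v0)).comp hy
      exact bigO_comp hΦ (h8.prodMk_nhds he) (h9.prodMk_nhds hy2t) (hnn.prod_left hy2)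
    have e3 : (fun i => (x' i, e' i) - ((y i).1 + T (y i) • (y i).2,
        rf (dir (gradient G ((y i).1 + T (y i) • (y i).2))) (y i).2)) =
        fun i => (x' i - ((y i).1 + T (y i) • (y i).2),
          (e' i - rf (dir (gradient G (x' i))) (e i)) + (rf (dir (gradient G (x' i))) (e i) -
        rf (dir (gradient G ((y i).1 + T (y i) • (y i).2))) (y i).2)) := by
      funext i
      simp
    rw [e3]
    exact hxx.prod_left (he'.add hrf)

end C

end Pool.Agent.TH746.UM
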