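import Pool.Agent.TH746.UM.Flat

set_option autoImplicit false

open MeasureTheory Set Filter Topology Asymptotics Metric
open scoped ContDiff InnerProductSpace

namespace Pool.Agent.TH746.UM

section A
variable {E Z : Type} [NormedAddCommGroup E] [InnerProductSpace ℝ E] [FiniteDimensional ℝ E]
  [NormedAddCommGroup Z] [NormedSpace ℝ Z] [FiniteDimensional ℝ Z]

/-- The factor in `Dn = lam Dx`. -/
noncomputable def lamf (x n : Z → E) (z : Z) : ℝ :=
  (∑ i, ⟪fderiv ℝ n z (Module.finBasis ℝ Z i), fderiv ℝ x z (Module.finBasis ℝ Z i)⟫_ℝ) /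
    ∑ i, ⟪fderiv ℝ x z (Module.finBasis ℝ Z i), fderiv ℝ x z (Module.finBasis ℝ Z i)⟫_ℝ

omit [FiniteDimensional ℝ E] in
theorem den_pos {x : Z → E} {z : Z} (h : fderiv ℝ x z ≠ 0) :
    0 < ∑ i, ⟪fderiv ℝ x z (Module.finBasis ℝ Z i), fderiv ℝ x z (Module.finBasis ℝ Z i)⟫_ℝ := by
  have h1 : ∃ i, fderiv ℝ x z (Module.finBasis ℝ Z i) ≠ 0 := by
    by_contra hcon
    push Not at hcon
    apply h
    have h2 : (fderiv ℝ x z : Z →ₗ[ℝ] E) = 0 := (Module.finBasis ℝ Z).ext fun i => by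
      rw [LinearMap.zero_apply]; exact hcon i
    ext ζ
    exact congrArg (fun l : Z →ₗ[ℝ] E => l ζ) h2
  obtain ⟨i, hi⟩ := h1
  refine Finset.sum_pos' (fun j _ => real_inner_self_nonneg) ⟨i, Finset.mem_univ _, ?_⟩
  exact real_inner_self_pos.2 hi

omit [FiniteDimensional ℝ E] in
theorem lamf_eq {x n : Z → E} {z : Z} (h : fderiv ℝ x z ≠ 0) {κ : ℝ}
    (hκ : ∀ ζ, fderiv ℝ n z ζ = κ • fderiv ℝ x z ζ) : lamf x n z = κ := by
  unfold lamf
  rw [div_eq_iff (den_pos h).ne', Finset.mul_sum]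
  refine Finset.sum_congr rfl fun i _ => ?_
  rw [hκ, real_inner_smul_left]

omit [FiniteDimensional ℝ E] in
theorem lamf_cd {x n : Z → E} {z : Z} (h : fderiv ℝ x z ≠ 0) (hx : ContDiffAt ℝ ∞ x z)
    (hn : ContDiffAt ℝ ∞ n z) : ContDiffAt ℝ ∞ (lamf x n) z := by
  have h1 : ContDiffAt ℝ ∞ (fderiv ℝ x) z := hx.fderiv_right le_rfl
  have h2 : ContDiffAt ℝ ∞ (fderiv ℝ n) z := hn.fderiv_right le_rfl
  have h3 : ∀ b : Z, ContDiffAt ℝ ∞ (fun z => fderiv ℝ x z b) z := fun b =>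
    h1.clm_apply contDiffAt_const
  have h4 : ∀ b : Z, ContDiffAt ℝ ∞ (fun z => fderiv ℝ n z b) z := fun b =>
    h2.clm_apply contDiffAt_const
  exact (ContDiffAt.sum fun i _ => (h4 _).inner ℝ (h3 _)).div
    (ContDiffAt.sum fun i _ => (h3 _).inner ℝ (h3 _)) (den_pos h).ne'

variable [MeasurableSpace Z] [BorelSpace Z]

/-- The conclusion: the family is spherical up to a flat error. -/
def Sph (x n : Z → E) (z0 : Z) (lam : ℝ) : Prop :=
  (∀ M : ℕ, (fun z => mir (x z0) (n z0) lam (x z)) =O[𝓝 z0] fun z => ‖z - z0‖ ^ M) ∧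
  (∀ M : ℕ, (fun z => n z - (lam • (x z - x z0) + n z0)) =O[𝓝 z0] fun z => ‖z - z0‖ ^ M)

theorem lam_flat (μ : Measure Z) [μ.IsAddHaarMeasure] (A : Set Z) (x n : Z → E)
    (hx : ∀ z ∈ A, ContDiffAt ℝ ∞ x z) (hn : ∀ z ∈ A, ContDiffAt ℝ ∞ n z)
    (hne : ∀ z ∈ A, fderiv ℝ x z ≠ 0)
    (hκ : ∀ z ∈ A, ∃ κ : ℝ, ∀ ζ, fderiv ℝ n z ζ = κ • fderiv ℝ x z ζ)
    (htan : ∀ z ∈ A, ∀ᶠ z' in 𝓝 z, ∀ ζ, ⟪n z', fderiv ℝ x z' ζ⟫_ℝ = 0)
    (hlam : ∀ z ∈ A, fderiv ℝ (lamf x n) z = 0) :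
    ∃ B : Set Z, μ B = 0 ∧ ∀ z0 ∈ A \ B, ∃ lam, Sph x n z0 lam := by
  obtain ⟨B, hB, hfl⟩ := exists_flat μ A
  refine ⟨B, hB, fun z0 hz0 => ?_⟩
  obtain ⟨lam, hl⟩ : ∃ lam, lam = lamf x n z0 := ⟨_, rfl⟩
  have hzA := hz0.1
  -- flatness of the two functions
  have f1 := (hfl z0 hz0 (Z →L[ℝ] E) (fun z => fderiv ℝ n z - lamf x n z • fderiv ℝ x z)
    (fun z hz => ((hn z hz).fderiv_right le_rfl).sub
      ((lamf_cd (hne z hz) (hx z hz) (hn z hz)).smul ((hx z hz).fderiv_right le_rfl)))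
    (fun z hz => by
      obtain ⟨κ, h⟩ := hκ z hz
      have h1 := lamf_eq (hne z hz) h
      ext ζ
      rw [h1]
      simp [h ζ])).2
  have f2 := (hfl z0 hz0 (Z →L[ℝ] ℝ) (fun z => fderiv ℝ (lamf x n) z)
    (fun z hz => (lamf_cd (hne z hz) (hx z hz) (hn z hz)).fderiv_right le_rfl) hlam).2
  have dlam : ∀ᶠ z in 𝓝 z0, DifferentiableAt ℝ (lamf x n) z := by
    have h1 : ContDiffAt ℝ 1 (lamf x n) z0 :=
      (lamf_cd (hne z0 hzA) (hx z0 hzA) (hn z0 hzA)).of_le (by norm_cast)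
    filter_upwards [h1.eventually (by simp)] with z hz
    exact hz.differentiableAt one_ne_zero
  have dx : ∀ᶠ z in 𝓝 z0, DifferentiableAt ℝ x z := by
    have h1 : ContDiffAt ℝ 1 x z0 := (hx z0 hzA).of_le (by norm_cast)
    filter_upwards [h1.eventually (by simp)] with z hz
    exact hz.differentiableAt one_ne_zero
  have dn : ∀ᶠ z in 𝓝 z0, DifferentiableAt ℝ n z := by
    have h1 : ContDiffAt ℝ 1 n z0 := (hn z0 hzA).of_le (by norm_cast)
    filter_upwards [h1.eventually (by simp)] with z hz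
    exact hz.differentiableAt one_ne_zero
  have hxb : (fun z => fderiv ℝ x z) =O[𝓝 z0] fun _ => (1 : ℝ) := by
    have h1 : ContDiffAt ℝ ∞ (fderiv ℝ x) z0 := (hx z0 hzA).fderiv_right le_rfl
    exact h1.continuousAt.tendsto.isBigO_one ℝ
  have f3 : ∀ M : ℕ, (fun z => lamf x n z - lam) =O[𝓝 z0] fun z => ‖z - z0‖ ^ M := by
    intro M
    cases M with
    | zero =>
      simp only [pow_zero]
      have h1 := ((lamf_cd (hne z0 hzA) (hx z0 hzA) (hn z0 hzA)).continuousAt.sub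
        (continuousAt_const (y := lam))).tendsto
      exact h1.isBigO_one ℝ
    | succ M =>
      rw [hl]
      exact isBigO_succ dlam (f2 M)
  have f4 : ∀ M : ℕ, (fun z => n z - (lam • (x z - x z0) + n z0)) =O[𝓝 z0]
      fun z => ‖z - z0‖ ^ M := by
    have f5 : ∀ M : ℕ, (fun z => n z - (lam • (x z - x z0) + n z0)) =O[𝓝 z0]
      fun z => ‖z - z0‖ ^ (M + 1) := by
      intro M
      obtain ⟨k, hk⟩ : ∃ k : Z → E, k = fun z => n z - lam • x z := ⟨_, rfl⟩
      have dk : ∀ᶠ z in 𝓝 z0, DifferentiableAt ℝ k z := by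
        filter_upwards [dx, dn] with z h1 h2
        rw [hk]
        exact h2.sub (h1.const_smul lam)
      have hkd : (fun z => fderiv ℝ k z) =O[𝓝 z0] fun z => ‖z - z0‖ ^ M := by
        have h1 : (fun z => fderiv ℝ k z) =ᶠ[𝓝 z0] fun z =>
            (fderiv ℝ n z - lamf x n z • fderiv ℝ x z) + (lamf x n z - lam) • fderiv ℝ x z := by
          filter_upwards [dx, dn] with z h1 h2
          have h3 : fderiv ℝ k z = fderiv ℝ n z - lam • fderiv ℝ x z := by
            rw [hk]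
            exact (h2.hasFDerivAt.sub (h1.hasFDerivAt.const_smul lam)).fderiv
          rw [h3]
          module
        refine h1.trans_isBigO ((f1 M).add ?_)
        have h2 := (f3 M).smul hxb
        simp only [smul_eq_mul, mul_one] at h2
        exact h2
      refine (isBigO_succ dk hkd).congr_left fun z => ?_
      rw [hk]
      module
    intro M
    cases M with
    | zero =>
      refine (f5 0).trans ?_
      simp only [zero_add, pow_one, pow_zero]
      have h1 : Tendsto (fun z : Z => ‖z - z0‖) (𝓝 z0) (𝓝 ‖z0 - z0‖) :=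
        (continuous_id.sub continuous_const).norm.tendsto z0
      exact h1.isBigO_one ℝ
    | succ M => exact f5 M
  refine ⟨lam, ?_, f4⟩
  have f6 : ∀ M : ℕ, (fun z => mir (x z0) (n z0) lam (x z)) =O[𝓝 z0]
      fun z => ‖z - z0‖ ^ (M + 1) := by
    intro M
    have dm : ∀ᶠ z in 𝓝 z0, DifferentiableAt ℝ (fun z => mir (x z0) (n z0) lam (x z)) z := by
      filter_upwards [dx] with z h1
      exact ((mir_cd (x z0) (n z0) lam 1).differentiable one_ne_zero _).comp z h1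
    have hmd : (fun z => fderiv ℝ (fun z => mir (x z0) (n z0) lam (x z)) z) =O[𝓝 z0]
        fun z => ‖z - z0‖ ^ M := by
      have h1 : (fun z => fderiv ℝ (fun z => mir (x z0) (n z0) lam (x z)) z) =O[𝓝 z0]
          fun z => ‖n z - (lam • (x z - x z0) + n z0)‖ * ‖fderiv ℝ x z‖ := by
        refine IsBigO.of_bound 1 ?_
        filter_upwards [dx, htan z0 hzA] with z h1 h2
        rw [one_mul, norm_mul, norm_norm, norm_norm]
        refine ContinuousLinearMap.opNorm_le_bound _ (by positivity) fun ζ => ?_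
        have h3 : HasFDerivAt (fun z => mir (x z0) (n z0) lam (x z))
            ((fderiv ℝ (mir (x z0) (n z0) lam) (x z)).comp (fderiv ℝ x z)) z :=
          ((mir_cd (x z0) (n z0) lam 1).differentiable one_ne_zero _).hasFDerivAt.comp z
            h1.hasFDerivAt
        rw [h3.fderiv, ContinuousLinearMap.comp_apply, ← inner_gradient_left, mir_grad]
        have h4 : ⟪lam • (x z - x z0) + n z0, fderiv ℝ x z ζ⟫_ℝ =
            -⟪n z - (lam • (x z - x z0) + n z0), fderiv ℝ x z ζ⟫_ℝ := by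
          rw [inner_sub_left, h2 ζ]; ring
        rw [h4, norm_neg, Real.norm_eq_abs]
        refine (abs_real_inner_le_norm _ _).trans ?_
        rw [mul_assoc]
        exact mul_le_mul_of_nonneg_left ((fderiv ℝ x z).le_opNorm ζ) (norm_nonneg _)
      refine h1.trans ?_
      have h2 := (f4 M).norm_left.mul hxb.norm_left
      simp only [mul_one] at h2
      exact h2
    refine (isBigO_succ dm hmd).congr_left fun z => ?_
    rw [mir_self, sub_zero]
  intro M
  cases M with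
  | zero =>
    refine (f6 0).trans ?_
    simp only [zero_add, pow_one, pow_zero]
    have h1 : Tendsto (fun z : Z => ‖z - z0‖) (𝓝 z0) (𝓝 ‖z0 - z0‖) :=
      (continuous_id.sub continuous_const).norm.tendsto z0
    exact h1.isBigO_one ℝ
  | succ M => exact f6 M

/-- Umbilic points: the factor is stationary at almost all points. -/
theorem umb_flat (μ : Measure Z) [μ.IsAddHaarMeasure] (A : Set Z) (x n : Z → E)
    (hx : ∀ z ∈ A, ContDiffAt ℝ ∞ x z) (hn : ∀ z ∈ A, ContDiffAt ℝ ∞ n z)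
    (hrk : ∀ z ∈ A, ∀ a, ∃ b, ∀ c : ℝ, fderiv ℝ x z b ≠ c • fderiv ℝ x z a)
    (hκ : ∀ z ∈ A, ∃ κ : ℝ, ∀ ζ, fderiv ℝ n z ζ = κ • fderiv ℝ x z ζ)
    (htan : ∀ z ∈ A, ∀ᶠ z' in 𝓝 z, ∀ ζ, ⟪n z', fderiv ℝ x z' ζ⟫_ℝ = 0) :
    ∃ B : Set Z, μ B = 0 ∧ ∀ z0 ∈ A \ B, ∃ lam, Sph x n z0 lam := by
  have hne : ∀ z ∈ A, fderiv ℝ x z ≠ 0 := by
    intro z hz h
    obtain ⟨b, hb⟩ := hrk z hz 0
    apply hb 0
    rw [h]; simp
  obtain ⟨B1, hB1, hfl⟩ := exists_flat μ A
  have hlam : ∀ z ∈ A \ B1, fderiv ℝ (lamf x n) z = 0 := by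
    intro z hz
    have hzA := hz.1
    have hxz := hx z hzA
    have hnz := hn z hzA
    have hlc := lamf_cd (hne z hzA) hxz hnz
    have f1 := (hfl z hz (Z →L[ℝ] E) (fun z => fderiv ℝ n z - lamf x n z • fderiv ℝ x z)
      (fun z hz => ((hn z hz).fderiv_right le_rfl).sub
        ((lamf_cd (hne z hz) (hx z hz) (hn z hz)).smul ((hx z hz).fderiv_right le_rfl)))
      (fun z hz => by
        obtain ⟨κ, h⟩ := hκ z hz
        have h1 := lamf_eq (hne z hz) h
        ext ζ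
        rw [h1]
        simp [h ζ])).1
    have cx1 : ContDiffAt ℝ ∞ (fderiv ℝ x) z := hxz.fderiv_right le_rfl
    have cn1 : ContDiffAt ℝ ∞ (fderiv ℝ n) z := hnz.fderiv_right le_rfl
    have h1 := (cn1.differentiableAt (by simp)).hasFDerivAt.sub
      ((hlc.differentiableAt (by simp)).hasFDerivAt.smul (cx1.differentiableAt (by simp)).hasFDerivAt)
    have h2 : fderiv ℝ (fun z => fderiv ℝ n z - lamf x n z • fderiv ℝ x z) z =
      fderiv ℝ (fderiv ℝ n) z - (lamf x n z • fderiv ℝ (fderiv ℝ x) z +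
        (fderiv ℝ (lamf x n) z).smulRight (fderiv ℝ x z)) := h1.fderiv
    rw [f1] at h2
    have h3 : ∀ a b, fderiv ℝ (fderiv ℝ n) z a b - (lamf x n z • fderiv ℝ (fderiv ℝ x) z a b +
        (fderiv ℝ (lamf x n) z a) • fderiv ℝ x z b) = 0 := by
      intro a b
      have := congrArg (fun L : Z →L[ℝ] Z →L[ℝ] E => L a b) h2
      simp only [_root_.zero_apply] at this
      rw [this]
      rfl
    have sx := (hxz.of_le (show (2 : WithTop ℕ∞) ≤ ∞ by norm_cast)).isSymmSndFDerivAt (by simp)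
    have sn := (hnz.of_le (show (2 : WithTop ℕ∞) ≤ ∞ by norm_cast)).isSymmSndFDerivAt (by simp)
    have h4 : ∀ a b, (fderiv ℝ (lamf x n) z a) • fderiv ℝ x z b =
        (fderiv ℝ (lamf x n) z b) • fderiv ℝ x z a := by
      intro a b
      have e1 := h3 a b
      have e2 := h3 b a
      rw [sx.eq b a, sn.eq b a] at e2
      have e3 := e1.trans e2.symm
      rw [sub_right_inj, add_right_inj] at e3
      exact e3
    ext a
    by_contra hne'
    rw [_root_.zero_apply] at hne'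
    obtain ⟨b, hb⟩ := hrk z hzA a
    apply hb ((fderiv ℝ (lamf x n) z a)⁻¹ * fderiv ℝ (lamf x n) z b)
    rw [mul_smul, ← h4 a b, smul_smul, inv_mul_cancel₀ hne', one_smul]
  obtain ⟨B2, hB2, hf⟩ := lam_flat μ (A \ B1) x n (fun z hz => hx z hz.1) (fun z hz => hn z hz.1)
    (fun z hz => hne z hz.1) (fun z hz => hκ z hz.1) (fun z hz => htan z hz.1) hlam
  refine ⟨B1 ∪ B2, measure_union_null hB1 hB2, fun z0 hz0 => hf z0 ⟨⟨hz0.1, fun h => ?_⟩, fun h => ?_⟩⟩
  · exact hz0.2 (Or.inl h)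
  · exact hz0.2 (Or.inr h)

end A

end Pool.Agent.TH746.UM
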